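import Pool.Agent.H318R2.Cr.Low
import Pool.Agent.Y855.A2

/-!
# Sieving intervals and progressions by primes up to a small power of the length
-/

set_option autoImplicit false

namespace Pool.Agent.J4.H70.SM

open Finset Filter Topology
open Pool.Agent.H318R2.Cr (Rgh Pz V cnt mem_Pz V_pos V_le_one)

/-- the number of solutions of a linear congruence in an interval -/
theorem card_dvd (Q b d a M : ℕ) (hd : 0 < d) (hco : Nat.Coprime d Q) :
    |(((Ioc a (a + M)).filter (fun m => d ∣ m * Q + b)).card : ℝ) - M / d| ≤ 1 := by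
  obtain ⟨r, hr⟩ : ∃ r : ℕ, ∀ m : ℕ, d ∣ m * Q + b ↔ m ≡ r [MOD d] := by
    rcases Nat.eq_or_lt_of_le (show 1 ≤ d from hd) with h1 | h1
    · refine ⟨0, fun m => ?_⟩
      subst h1
      simp [Nat.modEq_one]
    · obtain ⟨c, hc⟩ := Nat.exists_mul_mod_eq_one_of_coprime hco.symm h1
      have hc' : Q * c ≡ 1 [MOD d] := by
        unfold Nat.ModEq
        rw [hc.2, Nat.mod_eq_of_lt h1]
      -- r = c * (d * b - b)
      refine ⟨c * (d * b - b), fun m => ?_⟩
      have hdb : b ≤ d * b := Nat.le_mul_of_pos_left b hd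
      have e1 : (d * b - b) + b ≡ 0 [MOD d] := by
        rw [Nat.sub_add_cancel hdb]
        exact (Nat.modEq_zero_iff_dvd).2 (dvd_mul_right d b)
      constructor
      · intro h
        have h2 : m * Q + b ≡ (d * b - b) + b [MOD d] :=
          ((Nat.modEq_zero_iff_dvd).2 h).trans e1.symm
        have h3 : m * Q ≡ d * b - b [MOD d] := Nat.ModEq.add_right_cancel' b h2
        calc m = m * 1 := (mul_one m).symm
          _ ≡ m * (Q * c) [MOD d] := (hc'.symm).mul_left m
          _ = m * Q * c := by ring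
          _ ≡ (d * b - b) * c [MOD d] := h3.mul_right c
          _ = c * (d * b - b) := by ring
      · intro h
        have h2 : m * Q + b ≡ (d * b - b) + b [MOD d] := by
          apply Nat.ModEq.add_right
          calc m * Q ≡ c * (d * b - b) * Q [MOD d] := h.mul_right Q
            _ = (d * b - b) * (Q * c) := by ring
            _ ≡ (d * b - b) * 1 [MOD d] := hc'.mul_left _
            _ = d * b - b := mul_one _
        exact (Nat.modEq_zero_iff_dvd).1 (h2.trans e1)
  have h1 : (Ioc a (a + M)).filter (fun m => d ∣ m * Q + b) =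
      (Ioc a (a + M)).filter (fun m => m ≡ r [MOD d]) := by
    apply filter_congr
    intro m _
    exact hr m
  rw [h1]
  have h2 := Nat.Ioc_filter_modEq_card a (a + M) hd r
  have hdq : (0 : ℚ) < d := by exact_mod_cast hd
  have hdr : (0 : ℝ) < d := by exact_mod_cast hd
  have h3 : (((Ioc a (a + M)).filter (fun m => m ≡ r [MOD d])).card : ℚ) =
      ((max (⌊(((a + M : ℕ) : ℚ) - r) / d⌋ - ⌊((a : ℚ) - r) / d⌋) 0 : ℤ) : ℚ) := by
    exact_mod_cast h2
  set u : ℚ := (((a + M : ℕ) : ℚ) - r) / d with hu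
  set v : ℚ := ((a : ℚ) - r) / d with hv
  have huv : u - v = M / d := by
    rw [hu, hv]
    push_cast
    field_simp
    ring
  have hM : (0 : ℚ) ≤ M / d := by positivity
  have hmono : ⌊v⌋ ≤ ⌊u⌋ := Int.floor_mono (by linarith)
  rw [max_eq_left (by omega)] at h3
  have h4 : |(((Ioc a (a + M)).filter (fun m => m ≡ r [MOD d])).card : ℚ) - M / d| ≤ 1 := by
    rw [h3, ← huv]
    push_cast
    have a1 := Int.floor_le u
    have a2 := Int.lt_floor_add_one u
    have a3 := Int.floor_le v
    have a4 := Int.lt_floor_add_one v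
    rw [abs_le]
    constructor <;> linarith
  have h5 : ((|(((Ioc a (a + M)).filter (fun m => m ≡ r [MOD d])).card : ℚ) - M / d| : ℚ) : ℝ) ≤
      ((1 : ℚ) : ℝ) := by exact_mod_cast h4
  rw [Rat.cast_abs] at h5
  push_cast at h5
  exact h5

/-- the fundamental lemma for a progression -/
theorem count_prog (ε : ℝ) (hε : 0 < ε) : ∃ B : ℕ, 1 ≤ B ∧ ∀ z : ℕ, 2 ≤ z → ∀ P : Finset ℕ,
    (∀ p ∈ P, p.Prime ∧ p ≤ z) → ∀ Q b a M : ℕ, (∀ p ∈ P, ¬ p ∣ Q) →
    |(((Ioc a (a + M)).filter (fun m => ∀ p ∈ P, ¬ p ∣ m * Q + b)).card : ℝ) -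
        M * ∏ p ∈ P, (1 - 1 / (p : ℝ))| ≤
      ε * (M * ∏ p ∈ P, (1 - 1 / (p : ℝ))) + (Nat.log 2 z + 2) * (z : ℝ) ^ B := by
  obtain ⟨B, hB1, hB⟩ := Pool.Agent.Y855.FL ε hε
  refine ⟨B, hB1, ?_⟩
  intro z hz P hP Q b a M hPQ
  have h := hB z hz P hP (fun p => 1 / (p : ℝ)) (by
    intro p hp
    have h2 : (2 : ℝ) ≤ p := by exact_mod_cast (hP p hp).1.two_le
    refine ⟨by positivity, one_div_le_one_div_of_le (by norm_num) h2, ?_⟩
    have h0 : (0 : ℝ) < p := by linarith
    exact div_le_div_of_nonneg_right (by norm_num) h0.le) (Ioc a (a + M))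
    (fun m => m * Q + b) (M : ℝ) (by positivity)
  refine h.trans ?_
  gcongr
  have hcard : ((P.powerset.filter (fun U => ∏ p ∈ U, p ≤ z ^ B)).card : ℝ) ≤ (z : ℝ) ^ B := by
    have h1 : (P.powerset.filter (fun U => ∏ p ∈ U, p ≤ z ^ B)).card ≤ (Icc 1 (z ^ B)).card := by
      apply Finset.card_le_card_of_injOn (fun U => ∏ p ∈ U, p)
      · intro U hU
        rw [mem_coe, mem_filter, mem_powerset] at hU
        rw [mem_coe, mem_Icc]
        exact ⟨Nat.one_le_iff_ne_zero.2 (prod_ne_zero_iff.2 fun p hp => (hP p (hU.1 hp)).1.ne_zero),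
          hU.2⟩
      · intro U hU U' hU' he
        rw [mem_coe, mem_filter, mem_powerset] at hU hU'
        have e1 := Nat.primeFactors_prod (s := U) fun p hp => (hP p (hU.1 hp)).1
        have e2 := Nat.primeFactors_prod (s := U') fun p hp => (hP p (hU'.1 hp)).1
        rw [← e1, ← e2]
        simp only at he
        rw [he]
    rw [Nat.card_Icc, Nat.add_sub_cancel] at h1
    exact_mod_cast h1
  calc ∑ U ∈ P.powerset.filter (fun U => ∏ p ∈ U, p ≤ z ^ B),
        |(((Ioc a (a + M)).filter (fun ω => ∀ p ∈ U, p ∣ ω * Q + b)).card : ℝ) -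
          M * ∏ p ∈ U, 1 / (p : ℝ)|
      ≤ ∑ _U ∈ P.powerset.filter (fun U => ∏ p ∈ U, p ≤ z ^ B), (1 : ℝ) := by
        apply sum_le_sum
        intro U hU
        rw [mem_filter, mem_powerset] at hU
        have hUp : ∀ p ∈ U, p.Prime := fun p hp => (hP p (hU.1 hp)).1
        set d := ∏ p ∈ U, p with hd
        have hd0 : 0 < d := Nat.pos_of_ne_zero (prod_ne_zero_iff.2 fun p hp => (hUp p hp).ne_zero)
        have hco : Nat.Coprime d Q := by
          apply Nat.Coprime.prod_left
          intro p hp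
          exact ((hUp p hp).coprime_iff_not_dvd).2 (hPQ p (hU.1 hp))
        have h1 := card_dvd Q b d a M hd0 hco
        have e1 : (Ioc a (a + M)).filter (fun ω => ∀ p ∈ U, p ∣ ω * Q + b) =
            (Ioc a (a + M)).filter (fun m => d ∣ m * Q + b) := by
          apply filter_congr
          intro m _
          constructor
          · intro hm
            rw [hd]
            exact Finset.prod_primes_dvd _ (fun p hp => (hUp p hp).prime) hm
          · intro hm p hp
            exact (dvd_prod_of_mem (fun p => p) hp).trans hm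
        have e2 : (M : ℝ) * ∏ p ∈ U, 1 / (p : ℝ) = M / d := by
          rw [hd, prod_div_distrib, prod_const_one]
          push_cast
          ring
        rw [e1, e2]
        exact h1
    _ = ((P.powerset.filter (fun U => ∏ p ∈ U, p ≤ z ^ B)).card : ℝ) := by
        rw [sum_const, nsmul_eq_mul, mul_one]
    _ ≤ _ := hcard

/-- integers without prime factor `≤ z` in an interval -/
theorem cnt_bound (ε : ℝ) (hε : 0 < ε) : ∃ B : ℕ, 1 ≤ B ∧ ∀ z : ℕ, 2 ≤ z → ∀ a h : ℕ,
    |(cnt z a h : ℝ) - h * V z| ≤ ε * (h * V z) + (Nat.log 2 z + 2) * (z : ℝ) ^ B := by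
  obtain ⟨B, hB1, hB⟩ := count_prog ε hε
  refine ⟨B, hB1, fun z hz a h => ?_⟩
  have h1 := hB z hz (Pz z) (fun p hp => mem_Pz.1 hp) 1 0 a h (by
    intro p hp hd
    exact (mem_Pz.1 hp).1.one_lt.ne' (Nat.dvd_one.1 hd))
  have e1 : (cnt z a h : ℝ) =
      (((Ioc a (a + h)).filter (fun m => ∀ p ∈ Pz z, ¬ p ∣ m * 1 + 0)).card : ℝ) := by
    classical
    unfold cnt
    congr 1
    apply congrArg
    ext m
    rw [mem_filter, mem_filter]
    apply and_congr_right
    intro _
    unfold Rgh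
    constructor
    · intro hm p hp
      rw [mul_one, add_zero]
      exact hm p (mem_Pz.1 hp).1 (mem_Pz.1 hp).2
    · intro hm p hp hpz
      have := hm p (mem_Pz.2 ⟨hp, hpz⟩)
      rwa [mul_one, add_zero] at this
  rw [e1]
  exact h1

end Pool.Agent.J4.H70.SM
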