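import Pool.Agent.H318R2.Cr.Defs

/-!
# The upper limit of the normalised gaps of a set of integers
-/

set_option autoImplicit false

namespace Pool.Agent.J4.H70.SM

open Finset Filter Topology
open Pool.Agent.H318R2.Cr (cramerLimsup)

theorem nth_ge {S : Set ℕ} (hS : S.Infinite) (j : ℕ) : j ≤ Nat.nth (· ∈ S) j := by
  have h := (Nat.nth_strictMono (p := (· ∈ S)) hS).id_le j
  exact h

theorem nth_succ_le {S : Set ℕ} (hS : S.Infinite) {j n : ℕ} (hn : n ∈ S)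
    (h : Nat.nth (· ∈ S) j < n) : Nat.nth (· ∈ S) (j + 1) ≤ n := by
  classical
  have h1 : Nat.nth (· ∈ S) (Nat.count (· ∈ S) n) = n := Nat.nth_count hn
  rw [← h1] at h ⊢
  have h2 := (Nat.nth_strictMono (p := (· ∈ S)) hS).lt_iff_lt.1 h
  exact (Nat.nth_strictMono (p := (· ∈ S)) hS).monotone h2

theorem infinite_of_next {S : Set ℕ} {C : ℝ} {K : ℕ}
    (h : ∀ k, K ≤ k → ∀ a : ℕ, 2 ^ k ≤ a → a < 2 ^ (k + 1) →
      ∃ n ∈ S, a < n ∧ (n : ℝ) ≤ a + C * (k * Real.log 2) ^ 2) : S.Infinite := by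
  rw [Set.infinite_iff_exists_gt]
  intro b
  have h1 : 2 ^ K ≤ max b (2 ^ K) := le_max_right _ _
  set a := max b (2 ^ K) with ha
  have ha0 : a ≠ 0 := by
    have : 0 < 2 ^ K := by positivity
    omega
  obtain ⟨n, hn, han, -⟩ := h (Nat.log 2 a) (by
    rw [Nat.le_log_iff_pow_le (by norm_num) ha0]
    exact h1) a (Nat.pow_log_le_self 2 ha0) (Nat.lt_pow_succ_log_self (by norm_num) a)
  exact ⟨n, hn, lt_of_le_of_lt (le_max_left _ _) han⟩

theorem limsup_le {S : Set ℕ} {C : ℝ} (hC : 0 ≤ C) {K : ℕ}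
    (h : ∀ k, K ≤ k → ∀ a : ℕ, 2 ^ k ≤ a → a < 2 ^ (k + 1) →
      ∃ n ∈ S, a < n ∧ (n : ℝ) ≤ a + C * (k * Real.log 2) ^ 2) : cramerLimsup S ≤ (C : EReal) := by
  have hS := infinite_of_next h
  unfold cramerLimsup
  apply Filter.limsup_le_of_le
  · isBoundedDefault
  filter_upwards [eventually_ge_atTop (max 2 (2 ^ K))] with j hj
  rw [EReal.coe_le_coe_iff]
  have hj1 : max 2 (2 ^ K) ≤ Nat.nth (· ∈ S) j := hj.trans (nth_ge hS j)
  set q := Nat.nth (· ∈ S) j with hq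
  have hq2 : 2 ≤ q := (le_max_left _ _).trans hj1
  have hq0 : q ≠ 0 := by omega
  have hk1 : 2 ^ Nat.log 2 q ≤ q := Nat.pow_log_le_self 2 hq0
  obtain ⟨n, hn, hqn, hn2⟩ := h (Nat.log 2 q) (by
    rw [Nat.le_log_iff_pow_le (by norm_num) hq0]
    exact (le_max_right _ _).trans hj1) q hk1 (Nat.lt_pow_succ_log_self (by norm_num) q)
  have h1 : Nat.nth (· ∈ S) (j + 1) ≤ n := nth_succ_le hS hn hqn
  have h1' : (Nat.nth (· ∈ S) (j + 1) : ℝ) ≤ n := by exact_mod_cast h1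
  have hqr : (2 : ℝ) ≤ q := by exact_mod_cast hq2
  have hlog : 0 < Real.log q := Real.log_pos (by linarith)
  have hlog2 : 0 < Real.log 2 := Real.log_pos (by norm_num)
  rw [div_le_iff₀ (by positivity)]
  have hk : (Nat.log 2 q : ℝ) * Real.log 2 ≤ Real.log q := by
    rw [← Real.log_pow]
    apply Real.log_le_log (by positivity)
    exact_mod_cast hk1
  calc (Nat.nth (· ∈ S) (j + 1) : ℝ) - q ≤ C * ((Nat.log 2 q : ℝ) * Real.log 2) ^ 2 := by linarith
    _ ≤ C * Real.log q ^ 2 := by gcongr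

theorem le_limsup {S : Set ℕ} (hS : S.Infinite) {C : ℝ} (hC : 0 ≤ C)
    (h : ∃ᶠ k : ℕ in atTop, ∃ a l : ℕ, 2 ^ k ≤ a ∧ a < 2 ^ (k + 1) ∧
      C * ((k + 1) * Real.log 2) ^ 2 ≤ l ∧ ∀ n ∈ Ioc a (a + l), n ∉ S) :
    (C : EReal) ≤ cramerLimsup S := by
  classical
  unfold cramerLimsup
  apply Filter.le_limsup_of_frequently_le
  · rw [frequently_atTop]
    intro J
    obtain ⟨k, hk, a, l, ha1, ha2, hl, hal⟩ := (frequently_atTop.1 h)
      (max 2 (Nat.nth (· ∈ S) (max J 2) + 1))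
    have hak : Nat.nth (· ∈ S) (max J 2) < a := by
      have h1 : k < 2 ^ k := Nat.lt_two_pow_self
      have h2 := (le_max_right 2 (Nat.nth (· ∈ S) (max J 2) + 1)).trans hk
      omega
    set c := Nat.count (· ∈ S) (a + 1) with hc
    have hc1 : max J 2 < c := (Nat.lt_nth_iff_count_lt (p := (· ∈ S)) hS).2 (by omega)
    obtain ⟨j, hj⟩ : ∃ j, c = j + 1 := ⟨c - 1, by omega⟩
    have hjJ : max J 2 ≤ j := by omega
    have h1 : Nat.nth (· ∈ S) j < a + 1 := Nat.nth_lt_of_lt_count (by rw [← hc, hj]; omega)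
    have h2 : a + 1 ≤ Nat.nth (· ∈ S) (j + 1) := by
      rw [← hj, hc]
      exact Nat.le_nth_count (p := (· ∈ S)) hS (a + 1)
    have h3 : Nat.nth (· ∈ S) (j + 1) ∈ S := Nat.nth_mem_of_infinite hS (j + 1)
    have h4 : a + l < Nat.nth (· ∈ S) (j + 1) := by
      by_contra hcon
      exact hal _ (mem_Ioc.2 ⟨by omega, by omega⟩) h3
    refine ⟨j, (le_max_left _ _).trans hjJ, ?_⟩
    rw [EReal.coe_le_coe_iff]
    set q := Nat.nth (· ∈ S) j with hq
    have hq2 : 2 ≤ q := (le_max_right J 2).trans (hjJ.trans (nth_ge hS j))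
    have hqr : (2 : ℝ) ≤ q := by exact_mod_cast hq2
    have hlog : 0 < Real.log q := Real.log_pos (by linarith)
    rw [le_div_iff₀ (by positivity)]
    have hqa : Real.log q ≤ (k + 1) * Real.log 2 := by
      have h5 : q ≤ 2 ^ (k + 1) := by omega
      have h6 : (q : ℝ) ≤ 2 ^ (k + 1) := by exact_mod_cast h5
      have h7 := Real.log_le_log (by linarith) h6
      rw [Real.log_pow] at h7
      push_cast at h7
      exact h7
    have h8 : (l : ℝ) ≤ (Nat.nth (· ∈ S) (j + 1) : ℝ) - q := by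
      have h9 : q + l ≤ Nat.nth (· ∈ S) (j + 1) := by omega
      have h10 : (q : ℝ) + l ≤ Nat.nth (· ∈ S) (j + 1) := by exact_mod_cast h9
      linarith
    have h11 : C * Real.log q ^ 2 ≤ C * (((k : ℝ) + 1) * Real.log 2) ^ 2 := by gcongr
    exact h11.trans (hl.trans h8)
  · isBoundedDefault

end Pool.Agent.J4.H70.SM
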