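import Mathlib

/-!
# Independent events: the probability that one of several disjoint sets of indices is empty
-/

set_option autoImplicit false

namespace Pool.Agent.J4.H70.SM

open Finset Filter Topology MeasureTheory ProbabilityTheory

variable {Ω : Type*} [MeasurableSpace Ω]

/-- no event with index in `T` occurs -/
def F (A : ℕ → Set Ω) (T : Finset ℕ) : Set Ω := ⋂ n ∈ T, (A n)ᶜ

omit [MeasurableSpace Ω] in
theorem mem_F {A : ℕ → Set Ω} {T : Finset ℕ} {ω : Ω} : ω ∈ F A T ↔ ∀ n ∈ T, ω ∉ A n := by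
  simp [F]

theorem meas_F {A : ℕ → Set Ω} (hA : ∀ n, MeasurableSet (A n)) (T : Finset ℕ) :
    MeasurableSet (F A T) :=
  Finset.measurableSet_biInter T fun n _ => (hA n).compl

omit [MeasurableSpace Ω] in
theorem F_union (A : ℕ → Set Ω) (T U : Finset ℕ) : F A (T ∪ U) = F A T ∩ F A U := by
  ext ω
  simp only [mem_F, Set.mem_inter_iff, Finset.mem_union]
  constructor
  · intro h
    exact ⟨fun n hn => h n (Or.inl hn), fun n hn => h n (Or.inr hn)⟩
  · rintro ⟨h1, h2⟩ n (hn | hn)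
    · exact h1 n hn
    · exact h2 n hn

variable {μ : Measure Ω} [IsProbabilityMeasure μ]

theorem real_F {A : ℕ → Set Ω} (hA : ∀ n, MeasurableSet (A n)) (hI : iIndepSet A μ)
    (T : Finset ℕ) : μ.real (F A T) = ∏ n ∈ T, (1 - μ.real (A n)) := by
  unfold F
  have h : μ (⋂ n ∈ T, (A n)ᶜ) = ∏ n ∈ T, μ ((A n)ᶜ) := by
    apply iIndep.meas_biInter (m := fun n => MeasurableSpace.generateFrom {A n}) hI
    intro n _
    exact (MeasurableSpace.measurableSet_generateFrom (Set.mem_singleton (A n))).compl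
  unfold Measure.real at *
  rw [h, ENNReal.toReal_prod]
  apply prod_congr rfl
  intro n _
  have := probReal_compl_eq_one_sub (μ := μ) (hA n)
  exact this

theorem real_F_pos_le_one {A : ℕ → Set Ω} (T : Finset ℕ) :
    0 ≤ μ.real (F A T) ∧ μ.real (F A T) ≤ 1 := ⟨measureReal_nonneg, measureReal_le_one⟩

theorem real_inter {A : ℕ → Set Ω} (hA : ∀ n, MeasurableSet (A n)) (hI : iIndepSet A μ)
    {ι : Type} [DecidableEq ι] (J : ι → Finset ℕ) (I : Finset ι) :
    ∀ T : Finset ℕ, (∀ i ∈ I, Disjoint (J i) T) →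
      (∀ i ∈ I, ∀ j ∈ I, i ≠ j → Disjoint (J i) (J j)) →
      μ.real ((⋂ i ∈ I, (F A (J i))ᶜ) ∩ F A T) =
        (∏ i ∈ I, (1 - μ.real (F A (J i)))) * μ.real (F A T) := by
  induction I using Finset.induction_on with
  | empty => intro T _ _; simp
  | insert j I hj ih =>
    intro T hT hJ
    have hJ' : ∀ i ∈ I, ∀ j ∈ I, i ≠ j → Disjoint (J i) (J j) := fun i hi k hk =>
      hJ i (mem_insert_of_mem hi) k (mem_insert_of_mem hk)
    have h1 := ih T (fun i hi => hT i (mem_insert_of_mem hi)) hJ'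
    have h2 := ih (T ∪ J j) (fun i hi => by
      rw [disjoint_union_right]
      refine ⟨hT i (mem_insert_of_mem hi), hJ i (mem_insert_of_mem hi) j (mem_insert_self _ _) ?_⟩
      rintro rfl
      exact hj hi) hJ'
    have hm : MeasurableSet ((⋂ i ∈ I, (F A (J i))ᶜ) ∩ F A T) :=
      (Finset.measurableSet_biInter I fun i _ => (meas_F hA _).compl).inter (meas_F hA _)
    have e1 : (⋂ i ∈ insert j I, (F A (J i))ᶜ) ∩ F A T =
        ((⋂ i ∈ I, (F A (J i))ᶜ) ∩ F A T) \ (F A (J j)) := by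
      ext ω
      simp only [Set.mem_inter_iff, Set.mem_iInter, Set.mem_compl_iff, mem_insert, Set.mem_sdiff]
      constructor
      · rintro ⟨h, h'⟩
        exact ⟨⟨fun i hi => h i (Or.inr hi), h'⟩, h j (Or.inl rfl)⟩
      · rintro ⟨⟨h, h'⟩, h''⟩
        refine ⟨?_, h'⟩
        rintro i (rfl | hi)
        · exact h''
        · exact h i hi
    have e2 : ((⋂ i ∈ I, (F A (J i))ᶜ) ∩ F A T) ∩ F A (J j) =
        (⋂ i ∈ I, (F A (J i))ᶜ) ∩ F A (T ∪ J j) := by
      rw [F_union, Set.inter_assoc]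
    have e3 : μ.real (((⋂ i ∈ I, (F A (J i))ᶜ) ∩ F A T) \ (F A (J j))) =
        μ.real ((⋂ i ∈ I, (F A (J i))ᶜ) ∩ F A T) -
          μ.real (((⋂ i ∈ I, (F A (J i))ᶜ) ∩ F A T) ∩ F A (J j)) := by
      have := measureReal_sdiff_add_inter (μ := μ)
        (s := (⋂ i ∈ I, (F A (J i))ᶜ) ∩ F A T) (meas_F hA (J j))
      linarith
    have e4 : μ.real (F A (T ∪ J j)) = μ.real (F A T) * μ.real (F A (J j)) := by
      rw [real_F hA hI, real_F hA hI, real_F hA hI, prod_union]
      exact (hT j (mem_insert_self _ _)).symm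
    rw [e1, e3, e2, h1, h2, e4, prod_insert hj]
    ring

/-- the probability that one of the disjoint sets is empty -/
theorem real_biUnion {A : ℕ → Set Ω} (hA : ∀ n, MeasurableSet (A n)) (hI : iIndepSet A μ)
    {ι : Type} [DecidableEq ι] (J : ι → Finset ℕ) (I : Finset ι)
    (hJ : ∀ i ∈ I, ∀ j ∈ I, i ≠ j → Disjoint (J i) (J j)) :
    1 - Real.exp (-∑ i ∈ I, μ.real (F A (J i))) ≤ μ.real (⋃ i ∈ I, F A (J i)) := by
  have h := real_inter hA hI J I ∅ (fun i _ => disjoint_empty_right _) hJ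
  have e0 : F A ∅ = Set.univ := by ext ω; simp [mem_F]
  rw [e0, Set.inter_univ, probReal_univ, mul_one] at h
  have e1 : (⋂ i ∈ I, (F A (J i))ᶜ) = (⋃ i ∈ I, F A (J i))ᶜ := by
    rw [Set.compl_iUnion₂]
  rw [e1] at h
  have hm : MeasurableSet (⋃ i ∈ I, F A (J i)) :=
    Finset.measurableSet_biUnion I fun i _ => meas_F hA _
  rw [probReal_compl_eq_one_sub hm] at h
  have h2 : ∏ i ∈ I, (1 - μ.real (F A (J i))) ≤ Real.exp (-∑ i ∈ I, μ.real (F A (J i))) := by
    rw [← sum_neg_distrib, Real.exp_sum]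
    apply Finset.prod_le_prod
    · intro i _
      linarith [(real_F_pos_le_one (μ := μ) (A := A) (J i)).2]
    · intro i _
      have := Real.add_one_le_exp (-μ.real (F A (J i)))
      linarith
  linarith

/-- if the probabilities of infinitely many events are as close to one as one likes, then almost
surely infinitely many of them occur -/
theorem ae_frequently {E : ℕ → Set Ω} (hE : ∀ k, MeasurableSet (E k))
    (h : ∀ ε : ℝ, 0 < ε → ∃ᶠ k in atTop, 1 - ε ≤ μ.real (E k)) :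
    ∀ᵐ ω ∂μ, ∃ᶠ k in atTop, ω ∈ E k := by
  have h1 : ∀ n : ℕ, ∀ᵐ ω ∂μ, ∃ k, n ≤ k ∧ ω ∈ E k := by
    intro n
    rw [ae_iff]
    by_contra hc
    have hpos : 0 < μ.real {ω | ¬ ∃ k, n ≤ k ∧ ω ∈ E k} := by
      unfold Measure.real
      exact ENNReal.toReal_pos hc (measure_ne_top _ _)
    obtain ⟨k, hkn, hk⟩ := (frequently_atTop.1
      (h (μ.real {ω | ¬ ∃ k, n ≤ k ∧ ω ∈ E k} / 2) (by positivity))) n
    have hsub : {ω | ¬ ∃ k, n ≤ k ∧ ω ∈ E k} ⊆ (E k)ᶜ := by
      intro ω hω hω2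
      exact hω ⟨k, hkn, hω2⟩
    have hle := measureReal_mono (μ := μ) hsub
    rw [probReal_compl_eq_one_sub (hE k)] at hle
    linarith
  have h2 := ae_all_iff.2 h1
  filter_upwards [h2] with ω hω
  rw [frequently_atTop]
  exact hω

end Pool.Agent.J4.H70.SM
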