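import Pool.Agent.J4.H70.SM.Cnt
import Pool.Agent.J4.H70.SM.Prob

/-!
# Estimates for the sieved model
-/

set_option autoImplicit false

namespace Pool.Agent.J4.H70.SM

open Finset Filter Topology MeasureTheory ProbabilityTheory
open Pool.Agent.H318R2.Cr (Rgh Pz V cnt mem_Pz V_pos V_le_one cz_bounds keepProb IsSievedModel
  one_sub_inv_pos)

theorem Pz_small {z : ℕ} (hz : z ≤ 1) : Pz z = ∅ := by
  rw [eq_empty_iff_forall_notMem]
  intro p hp
  have h1 := mem_Pz.1 hp
  have := h1.1.two_le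
  omega

theorem V_small {z : ℕ} (hz : z ≤ 1) : V z = 1 := by
  unfold V
  rw [Pz_small hz, prod_empty]

theorem Rgh_small {z : ℕ} (hz : z ≤ 1) (n : ℕ) : Rgh z n := by
  intro p hp hpz
  have := hp.two_le
  omega

theorem cnt_small {z : ℕ} (hz : z ≤ 1) (a h : ℕ) : cnt z a h = h := by
  classical
  unfold cnt
  rw [filter_true_of_mem fun n _ => Rgh_small hz n, Nat.card_Ioc]
  omega

theorem V_ge : ∃ c : ℝ, 0 < c ∧ ∀ z : ℕ, 2 ≤ z → c / z ≤ V z := by
  obtain ⟨c₁, c₂, h1, -, h⟩ := cz_bounds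
  refine ⟨c₁, h1, fun z hz => ?_⟩
  have hzr : (2 : ℝ) ≤ z := by exact_mod_cast hz
  have hlog : Real.log z ≤ z := Real.log_le_self (by linarith)
  rw [div_le_iff₀ (by linarith)]
  exact (h z hz).1.trans (mul_le_mul_of_nonneg_left hlog (V_pos z).le)

theorem log_two_le (z : ℕ) (hz : 2 ≤ z) : ((Nat.log 2 z : ℕ) : ℝ) + 2 ≤ 2 * z := by
  have h1 : Nat.log 2 z < z := Nat.log_lt_self 2 (by omega)
  have h2 : Nat.log 2 z + 2 ≤ 2 * z := by omega
  exact_mod_cast h2

/-- the number of sifted integers in an interval is asymptotically what it should be -/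
theorem cnt_asymp (ε : ℝ) (hε : 0 < ε) : ∃ (B : ℕ) (D : ℝ), 0 < D ∧ ∀ z a h : ℕ,
    D * (z : ℝ) ^ B ≤ h → |(cnt z a h : ℝ) - h * V z| ≤ ε * (h * V z) := by
  obtain ⟨B, hB1, hB⟩ := cnt_bound (ε / 2) (by positivity)
  obtain ⟨c, hc, hV⟩ := V_ge
  refine ⟨B + 2, 4 / (ε * c), by positivity, fun z a h hh => ?_⟩
  rcases Nat.lt_or_ge z 2 with hz | hz
  · rw [cnt_small (by omega), V_small (by omega), mul_one, sub_self, abs_zero]
    positivity
  · have hzr : (2 : ℝ) ≤ z := by exact_mod_cast hz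
    have h1 := hB z hz a h
    have h2 := hV z hz
    have h3 : ((Nat.log 2 z : ℕ) + 2 : ℝ) * (z : ℝ) ^ B ≤ 2 * (z : ℝ) ^ (B + 1) := by
      calc ((Nat.log 2 z : ℕ) + 2 : ℝ) * (z : ℝ) ^ B ≤ (2 * z) * (z : ℝ) ^ B := by
            gcongr
            exact log_two_le z hz
        _ = 2 * (z : ℝ) ^ (B + 1) := by ring
    have h4 : 2 * (z : ℝ) ^ (B + 1) ≤ ε / 2 * (h * V z) := by
      calc 2 * (z : ℝ) ^ (B + 1) = ε / 2 * ((4 / (ε * c) * (z : ℝ) ^ (B + 2)) * (c / z)) := by
            field_simp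
            ring
        _ ≤ ε / 2 * (h * V z) := by
            apply mul_le_mul_of_nonneg_left _ (by positivity)
            exact mul_le_mul hh h2 (by positivity) (by positivity)
    linarith

/-- the same for a progression -/
theorem prog_asymp (ε : ℝ) (hε : 0 < ε) : ∃ (B : ℕ) (D : ℝ), 0 < D ∧ ∀ z : ℕ, ∀ P : Finset ℕ,
    P ⊆ Pz z → ∀ Q b a M : ℕ, (∀ p ∈ P, ¬ p ∣ Q) → D * (z : ℝ) ^ B ≤ M →
    (((Ioc a (a + M)).filter (fun m => ∀ p ∈ P, ¬ p ∣ m * Q + b)).card : ℝ) ≤
      (1 + ε) * (M * ∏ p ∈ P, (1 - 1 / (p : ℝ))) := by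
  obtain ⟨B, hB1, hB⟩ := count_prog (ε / 2) (by positivity)
  obtain ⟨c, hc, hV⟩ := V_ge
  refine ⟨B + 2, 4 / (ε * c), by positivity, fun z P hP Q b a M hPQ hM => ?_⟩
  rcases Nat.lt_or_ge z 2 with hz | hz
  · have hP0 : P = ∅ := by
      rw [Pz_small (by omega)] at hP
      exact subset_empty.1 hP
    subst hP0
    simp only [prod_empty, mul_one]
    have h1 : (((Ioc a (a + M)).filter (fun m => ∀ p ∈ (∅ : Finset ℕ), ¬ p ∣ m * Q + b)).card : ℝ)
        ≤ M := by
      have h2 := card_filter_le (Ioc a (a + M)) (fun m => ∀ p ∈ (∅ : Finset ℕ), ¬ p ∣ m * Q + b)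
      rw [Nat.card_Ioc] at h2
      have h3 : a + M - a = M := by omega
      rw [h3] at h2
      exact_mod_cast h2
    have : 0 ≤ ε * (M : ℝ) := by positivity
    linarith
  · have hzr : (2 : ℝ) ≤ z := by exact_mod_cast hz
    have h1 := hB z hz P (fun p hp => mem_Pz.1 (hP hp)) Q b a M hPQ
    have h2 : c / z ≤ ∏ p ∈ P, (1 - 1 / (p : ℝ)) := by
      refine (hV z hz).trans ?_
      unfold V
      rw [← prod_sdiff hP]
      apply mul_le_of_le_one_left
      · exact prod_nonneg fun p hp => (one_sub_inv_pos (mem_Pz.1 (hP hp)).1).le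
      · apply prod_le_one
        · intro p hp
          exact (one_sub_inv_pos (mem_Pz.1 (mem_sdiff.1 hp).1).1).le
        · intro p _
          have : (0 : ℝ) ≤ 1 / p := by positivity
          linarith
    have h3 : ((Nat.log 2 z : ℕ) + 2 : ℝ) * (z : ℝ) ^ B ≤ 2 * (z : ℝ) ^ (B + 1) := by
      calc ((Nat.log 2 z : ℕ) + 2 : ℝ) * (z : ℝ) ^ B ≤ (2 * z) * (z : ℝ) ^ B := by
            gcongr
            exact log_two_le z hz
        _ = 2 * (z : ℝ) ^ (B + 1) := by ring
    have h4 : 2 * (z : ℝ) ^ (B + 1) ≤ ε / 2 * (M * ∏ p ∈ P, (1 - 1 / (p : ℝ))) := by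
      calc 2 * (z : ℝ) ^ (B + 1) = ε / 2 * ((4 / (ε * c) * (z : ℝ) ^ (B + 2)) * (c / z)) := by
            field_simp
            ring
        _ ≤ ε / 2 * (M * ∏ p ∈ P, (1 - 1 / (p : ℝ))) := by
            apply mul_le_mul_of_nonneg_left _ (by positivity)
            exact mul_le_mul hM h2 (by positivity) (by positivity)
    have h5 := (abs_le.1 h1).2
    linarith

/-! ### the growth of the sieve level -/

theorem le_exp_of {z : ℕ → ℕ} (hz : Tendsto (fun k : ℕ => Real.log (z k) / k) atTop (𝓝 0))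
    (τ : ℝ) (hτ : 0 < τ) : ∀ᶠ k : ℕ in atTop, (z k : ℝ) ≤ Real.exp (τ * k) := by
  filter_upwards [hz.eventually (gt_mem_nhds hτ), eventually_gt_atTop 0] with k hk hk0
  have hkr : (0 : ℝ) < k := by exact_mod_cast hk0
  rw [div_lt_iff₀ hkr] at hk
  rcases Nat.eq_zero_or_pos (z k) with h0 | h0
  · rw [h0]
    push_cast
    positivity
  · have h1 : (0 : ℝ) < z k := by exact_mod_cast h0
    rw [← Real.log_le_iff_le_exp h1]
    exact hk.le

theorem le_rpow_of {z : ℕ → ℕ}
    (hz : Tendsto (fun k : ℕ => Real.log (z k) / Real.log k) atTop (𝓝 0))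
    (τ : ℝ) (hτ : 0 < τ) : ∀ᶠ k : ℕ in atTop, (z k : ℝ) ≤ (k : ℝ) ^ τ := by
  filter_upwards [hz.eventually (gt_mem_nhds hτ), eventually_gt_atTop 1] with k hk hk0
  have hkr : (1 : ℝ) < k := by exact_mod_cast hk0
  rw [div_lt_iff₀ (Real.log_pos hkr)] at hk
  rcases Nat.eq_zero_or_pos (z k) with h0 | h0
  · rw [h0]
    push_cast
    positivity
  · have h1 : (0 : ℝ) < z k := by exact_mod_cast h0
    rw [Real.rpow_def_of_pos (by linarith), ← Real.log_le_iff_le_exp h1, mul_comm]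
    exact hk.le

theorem V_mul_tendsto {z : ℕ → ℕ}
    (hz : Tendsto (fun k : ℕ => Real.log (z k) / k) atTop (𝓝 0)) :
    Tendsto (fun k : ℕ => V (z k) * (k * Real.log 2)) atTop atTop := by
  obtain ⟨c₁, c₂, hc1, -, h⟩ := cz_bounds
  have hl2 : 0 < Real.log 2 := Real.log_pos (by norm_num)
  rw [tendsto_atTop]
  intro M
  set M' := max M 1 with hM'
  have hM1 : 0 < M' := lt_of_lt_of_le one_pos (le_max_right _ _)
  have h0 : 0 < c₁ * Real.log 2 / M' := by positivity
  filter_upwards [hz.eventually (gt_mem_nhds h0), eventually_gt_atTop 0,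
    tendsto_natCast_atTop_atTop.eventually_ge_atTop (M' / Real.log 2)] with k hk hk0 hkM
  have hkr : (0 : ℝ) < k := by exact_mod_cast hk0
  refine (le_max_left M 1).trans ?_
  rw [← hM']
  rw [div_le_iff₀ hl2] at hkM
  rcases Nat.lt_or_ge (z k) 2 with h2 | h2
  · rw [V_small (by omega), one_mul]
    exact hkM
  · have h3 : (2 : ℝ) ≤ z k := by exact_mod_cast h2
    have h4 : 0 < Real.log (z k) := Real.log_pos (by linarith)
    rw [div_lt_div_iff₀ hkr hM1] at hk
    have h5 := (h (z k) h2).1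
    have h6 : M' * Real.log (z k) ≤ (V (z k) * (k * Real.log 2)) * Real.log (z k) := by
      calc M' * Real.log (z k) = Real.log (z k) * M' := mul_comm _ _
        _ ≤ c₁ * Real.log 2 * k := hk.le
        _ ≤ (V (z k) * Real.log (z k)) * Real.log 2 * k := by gcongr
        _ = _ := by ring
    exact le_of_mul_le_mul_right h6 h4

/-! ### the probabilities -/

theorem log_block {k n : ℕ} (h1 : 2 ^ k ≤ n) (h2 : n < 2 ^ (k + 1)) : Nat.log 2 n = k :=
  Nat.log_eq_of_pow_le_of_lt_pow h1 h2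

theorem log_ge {k n : ℕ} (h1 : 2 ^ k ≤ n) : (k : ℝ) * Real.log 2 ≤ Real.log n := by
  rw [← Real.log_pow]
  apply Real.log_le_log (by positivity)
  exact_mod_cast h1

theorem log_le {k n : ℕ} (h0 : 0 < n) (h2 : n < 2 ^ (k + 1)) :
    Real.log n ≤ ((k : ℝ) + 1) * Real.log 2 := by
  have h3 : Real.log ((2 : ℝ) ^ (k + 1)) = ((k : ℝ) + 1) * Real.log 2 := by
    rw [Real.log_pow]
    push_cast
    ring
  rw [← h3]
  apply Real.log_le_log (by exact_mod_cast h0)
  exact_mod_cast h2.le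

theorem keepProb_nonneg (z : ℕ → ℕ) (n : ℕ) : 0 ≤ keepProb z n := by
  unfold keepProb
  split_ifs
  · apply le_min zero_le_one
    apply div_nonneg zero_le_one
    exact mul_nonneg (V_pos _).le (Real.log_natCast_nonneg n)
  · exact le_rfl

theorem keepProb_not {z : ℕ → ℕ} {k n : ℕ} (h1 : 2 ^ k ≤ n) (h2 : n < 2 ^ (k + 1))
    (h : ¬ Rgh (z k) n) : keepProb z n = 0 := by
  unfold keepProb
  rw [log_block h1 h2, if_neg h]

theorem keepProb_le {z : ℕ → ℕ} {k n : ℕ} (hk : 0 < k) (h1 : 2 ^ k ≤ n) (h2 : n < 2 ^ (k + 1)) :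
    keepProb z n ≤ 1 / (V (z k) * (k * Real.log 2)) := by
  have hl2 : 0 < Real.log 2 := Real.log_pos (by norm_num)
  have hkr : (0 : ℝ) < k := by exact_mod_cast hk
  have hV := V_pos (z k)
  unfold keepProb
  rw [log_block h1 h2]
  split_ifs
  · refine (min_le_right _ _).trans ?_
    apply one_div_le_one_div_of_le (by positivity)
    exact mul_le_mul_of_nonneg_left (log_ge h1) hV.le
  · positivity

theorem le_keepProb {z : ℕ → ℕ} {k n : ℕ} (hk : 0 < k) (hW : 1 ≤ V (z k) * (k * Real.log 2))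
    (h1 : 2 ^ k ≤ n) (h2 : n < 2 ^ (k + 1)) (h : Rgh (z k) n) :
    1 / (V (z k) * ((k + 1) * Real.log 2)) ≤ keepProb z n := by
  have hl2 : 0 < Real.log 2 := Real.log_pos (by norm_num)
  have hkr : (0 : ℝ) < k := by exact_mod_cast hk
  have hV := V_pos (z k)
  have hn : 0 < n := lt_of_lt_of_le (by positivity) h1
  have hlog : 0 < Real.log n := lt_of_lt_of_le (by positivity) (log_ge h1)
  unfold keepProb
  rw [log_block h1 h2, if_pos h]
  apply le_min
  · rw [div_le_one (by positivity)]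
    refine hW.trans ?_
    apply mul_le_mul_of_nonneg_left _ hV.le
    apply mul_le_mul_of_nonneg_right _ hl2.le
    linarith
  · apply one_div_le_one_div_of_le (by positivity)
    exact mul_le_mul_of_nonneg_left (log_le hn h2) hV.le

theorem sum_keepProb_le {z : ℕ → ℕ} {k a h : ℕ} (hk : 0 < k) (h1 : 2 ^ k ≤ a + 1)
    (h2 : a + h < 2 ^ (k + 1)) :
    ∑ n ∈ Ioc a (a + h), keepProb z n ≤ cnt (z k) a h / (V (z k) * (k * Real.log 2)) := by
  classical
  have e1 : ∑ n ∈ Ioc a (a + h), keepProb z n =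
      ∑ n ∈ (Ioc a (a + h)).filter (Rgh (z k)), keepProb z n := by
    rw [sum_filter]
    apply sum_congr rfl
    intro n hn
    rw [mem_Ioc] at hn
    split_ifs with hr
    · rfl
    · exact keepProb_not (by omega) (by omega) hr
  rw [e1]
  calc ∑ n ∈ (Ioc a (a + h)).filter (Rgh (z k)), keepProb z n
      ≤ ∑ _n ∈ (Ioc a (a + h)).filter (Rgh (z k)), 1 / (V (z k) * (k * Real.log 2)) := by
        apply sum_le_sum
        intro n hn
        rw [mem_filter, mem_Ioc] at hn
        exact keepProb_le hk (by omega) (by omega)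
    _ = _ := by
        rw [sum_const, nsmul_eq_mul]
        unfold cnt
        rw [mul_one_div]

theorem le_sum_keepProb {z : ℕ → ℕ} {k a h : ℕ} (hk : 0 < k)
    (hW : 1 ≤ V (z k) * (k * Real.log 2)) (h1 : 2 ^ k ≤ a + 1) (h2 : a + h < 2 ^ (k + 1)) :
    cnt (z k) a h / (V (z k) * ((k + 1) * Real.log 2)) ≤ ∑ n ∈ Ioc a (a + h), keepProb z n := by
  classical
  have e1 : ∑ n ∈ Ioc a (a + h), keepProb z n =
      ∑ n ∈ (Ioc a (a + h)).filter (Rgh (z k)), keepProb z n := by
    rw [sum_filter]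
    apply sum_congr rfl
    intro n hn
    rw [mem_Ioc] at hn
    split_ifs with hr
    · rfl
    · exact keepProb_not (by omega) (by omega) hr
  rw [e1]
  calc cnt (z k) a h / (V (z k) * ((k + 1) * Real.log 2))
      = ∑ _n ∈ (Ioc a (a + h)).filter (Rgh (z k)), 1 / (V (z k) * ((k + 1) * Real.log 2)) := by
        rw [sum_const, nsmul_eq_mul]
        unfold cnt
        rw [mul_one_div]
    _ ≤ _ := by
        apply sum_le_sum
        intro n hn
        rw [mem_filter, mem_Ioc] at hn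
        exact le_keepProb hk hW (by omega) (by omega) hn.2

variable {Ω : Type*} [MeasurableSpace Ω] {μ : Measure Ω} [IsProbabilityMeasure μ]

omit [IsProbabilityMeasure μ] in
theorem real_prob {z : ℕ → ℕ} {A : ℕ → Set Ω} (hA : IsSievedModel μ z A) (n : ℕ) :
    μ.real (A n) = keepProb z n := by
  unfold Measure.real
  rw [hA.prob n, ENNReal.toReal_ofReal (keepProb_nonneg z n)]

theorem real_F_le {z : ℕ → ℕ} {A : ℕ → Set Ω} (hA : IsSievedModel μ z A) (T : Finset ℕ) :
    μ.real (F A T) ≤ Real.exp (-∑ n ∈ T, keepProb z n) := by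
  rw [real_F hA.measurable hA.indep, ← sum_neg_distrib, Real.exp_sum]
  apply Finset.prod_le_prod
  · intro n _
    have := measureReal_le_one (μ := μ) (s := A n)
    linarith
  · intro n _
    rw [real_prob hA]
    have := Real.add_one_le_exp (-keepProb z n)
    linarith

theorem exp_le_one_sub' {ε p : ℝ} (hε : 0 < ε) (hp0 : 0 ≤ p) (hp : p ≤ ε / (1 + ε)) :
    Real.exp (-((1 + ε) * p)) ≤ 1 - p := by
  have h0 : p < 1 := lt_of_le_of_lt hp (by rw [div_lt_one (by linarith)]; linarith)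
  have h1 : 0 < 1 - p := by linarith
  have h2 := Real.one_sub_inv_le_log_of_pos h1
  have h3 : -((1 + ε) * p) ≤ 1 - (1 - p)⁻¹ := by
    have h4 : 1 - (1 - p)⁻¹ = -(p / (1 - p)) := by
      field_simp
      ring
    rw [h4]
    apply neg_le_neg
    rw [div_le_iff₀ h1]
    rw [le_div_iff₀ (by linarith)] at hp
    nlinarith
  calc Real.exp (-((1 + ε) * p)) ≤ Real.exp (Real.log (1 - p)) :=
        Real.exp_le_exp.2 (h3.trans h2)
    _ = 1 - p := Real.exp_log h1

theorem le_real_F {z : ℕ → ℕ} {A : ℕ → Set Ω} (hA : IsSievedModel μ z A) {ε : ℝ} (hε : 0 < ε)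
    {k a h : ℕ} (hk : 0 < k) (hW : (1 + ε) / ε ≤ V (z k) * (k * Real.log 2))
    (h1 : 2 ^ k ≤ a + 1) (h2 : a + h < 2 ^ (k + 1)) :
    Real.exp (-((1 + ε) * (cnt (z k) a h / (V (z k) * (k * Real.log 2))))) ≤
      μ.real (F A (Ioc a (a + h))) := by
  rw [real_F hA.measurable hA.indep]
  calc Real.exp (-((1 + ε) * (cnt (z k) a h / (V (z k) * (k * Real.log 2)))))
      ≤ Real.exp (-((1 + ε) * ∑ n ∈ Ioc a (a + h), keepProb z n)) := by
        apply Real.exp_le_exp.2
        apply neg_le_neg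
        apply mul_le_mul_of_nonneg_left (sum_keepProb_le hk h1 h2)
        linarith
    _ = ∏ n ∈ Ioc a (a + h), Real.exp (-((1 + ε) * keepProb z n)) := by
        rw [← Real.exp_sum, sum_neg_distrib, mul_sum]
    _ ≤ _ := by
        apply Finset.prod_le_prod
        · intro n _
          exact (Real.exp_pos _).le
        · intro n hn
          rw [mem_Ioc] at hn
          rw [real_prob hA]
          apply exp_le_one_sub' hε (keepProb_nonneg z n)
          refine (keepProb_le hk (by omega) (by omega)).trans ?_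
          have h3 : ε / (1 + ε) = 1 / ((1 + ε) / ε) := by
            field_simp
          rw [h3]
          exact one_div_le_one_div_of_le (by positivity) hW

end Pool.Agent.J4.H70.SM
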