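import Pool.Agent.J4.H70.SM.Gran

/-!
# The size of the largest gaps of the sieved random models
-/

set_option autoImplicit false

namespace Pool.Agent.J4.H70.SM

open Finset Filter Topology MeasureTheory ProbabilityTheory
open Pool.Agent.H318R2.Cr (Rgh Pz V cnt mem_Pz V_pos V_le_one keepProb IsSievedModel cramerLimsup
  lowInt)

theorem keepProb_le_one (z : ℕ → ℕ) (n : ℕ) : keepProb z n ≤ 1 := by
  unfold keepProb
  split_ifs
  · exact min_le_left _ _
  · exact zero_le_one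

/-- every sieve level has a model -/
theorem exists_model (z : ℕ → ℕ) : ∃ (Ω : Type) (_ : MeasurableSpace Ω) (μ : Measure Ω)
    (A : ℕ → Set Ω), IsProbabilityMeasure μ ∧ IsSievedModel μ z A := by
  obtain ⟨P, hPp, hP⟩ : ∃ P : Measure ℝ, IsProbabilityMeasure P ∧
      P = volume.restrict (Set.Icc 0 1) := ⟨_, ⟨by simp⟩, rfl⟩
  set t : ℕ → Set ℝ := fun n => Set.Icc 0 (keepProb z n) with ht
  have htm : ∀ n, MeasurableSet (t n) := fun n => measurableSet_Icc
  have hm : ∀ n, MeasurableSet {ω : ℕ → ℝ | ω n ∈ t n} := fun n =>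
    (measurable_pi_apply n) (htm n)
  have e1 : ∀ s : Finset ℕ, (⋂ n ∈ s, {ω : ℕ → ℝ | ω n ∈ t n}) = Set.pi s t := by
    intro s
    ext ω
    simp [Set.mem_pi]
  have e2 : ∀ s : Finset ℕ, Measure.infinitePi (fun _ => P) (⋂ n ∈ s, {ω : ℕ → ℝ | ω n ∈ t n}) =
      ∏ n ∈ s, P (t n) := by
    intro s
    rw [e1, Measure.infinitePi_pi]
    exact fun n _ => htm n
  have e3 : ∀ n, Measure.infinitePi (fun _ => P) {ω : ℕ → ℝ | ω n ∈ t n} = P (t n) := by
    intro n
    have h := e2 {n}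
    simpa using h
  refine ⟨ℕ → ℝ, MeasurableSpace.pi, Measure.infinitePi (fun _ => P), fun n => {ω | ω n ∈ t n},
    inferInstance, ⟨hm, ?_, ?_⟩⟩
  · rw [iIndepSet_iff_meas_biInter hm]
    intro s
    rw [e2]
    exact prod_congr rfl fun n _ => (e3 n).symm
  · intro n
    rw [e3, hP]
    simp only [ht]
    rw [Measure.restrict_apply measurableSet_Icc, Set.Icc_inter_Icc, max_self,
      min_eq_left (keepProb_le_one z n), Real.volume_Icc, sub_zero]

/-- the gaps are at least what the first heuristic predicts, for all sieve levels -/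
theorem one_le {Ω : Type*} [MeasurableSpace Ω] {μ : Measure Ω} [IsProbabilityMeasure μ]
    {z : ℕ → ℕ} (hz : Tendsto (fun k : ℕ => Real.log (z k) / k) atTop (𝓝 0))
    {A : ℕ → Set Ω} (hA : IsSievedModel μ z A) :
    ∀ᵐ ω ∂μ, (1 : EReal) ≤ cramerLimsup {n | ω ∈ A n} := by
  have h1 : ∀ j : ℕ, ∀ᵐ ω ∂μ, ((1 - 1 / ((j : ℝ) + 2) : ℝ) : EReal) ≤
      cramerLimsup {n | ω ∈ A n} := by
    intro j
    have h0 : 1 / ((j : ℝ) + 2) ≤ 1 / 2 := by
      apply one_div_le_one_div_of_le (by norm_num)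
      have : (0 : ℝ) ≤ j := Nat.cast_nonneg j
      linarith
    have h0' : 0 < 1 / ((j : ℝ) + 2) := by positivity
    apply lower hz hA (ρ := 1) (κ := 0) (by linarith) zero_le_one (by linarith) one_pos
    apply Eventually.frequently
    filter_upwards [eventually_ge_atTop 1] with k hk
    refine ⟨1, 0, ?_, ?_, by simp, ?_⟩
    · rw [Real.rpow_zero]
      push_cast
      exact le_rfl
    · rw [Pz_small le_rfl]
      exact empty_subset _
    · rw [cnt_small le_rfl, V_small le_rfl]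
      linarith
  filter_upwards [ae_all_iff.2 h1] with ω hω
  apply le_of_tendsto' (x := atTop) (f := fun j : ℕ => ((1 - 1 / ((j : ℝ) + 2) : ℝ) : EReal))
    ?_ hω
  have h2 : Tendsto (fun j : ℕ => 1 - 1 / ((j : ℝ) + 2)) atTop (𝓝 (1 - 0)) := by
    apply Tendsto.const_sub
    apply Tendsto.const_div_atTop
    exact tendsto_natCast_atTop_atTop.atTop_add tendsto_const_nhds
  rw [sub_zero] at h2
  exact_mod_cast (continuous_coe_real_ereal.tendsto (1 : ℝ)).comp h2

/-- sieving up to a power of the logarithm makes the largest gaps larger -/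
theorem one_add_le {η : ℝ} (hη : 0 < η) : ∃ δ : ℝ, 0 < δ ∧
    ∀ {Ω : Type*} [MeasurableSpace Ω] {μ : Measure Ω} [IsProbabilityMeasure μ]
    {z : ℕ → ℕ} (_ : Tendsto (fun k : ℕ => Real.log (z k) / k) atTop (𝓝 0))
    (_ : ∃ᶠ k : ℕ in atTop, (k : ℝ) ^ η ≤ z k)
    {A : ℕ → Set Ω} (_ : IsSievedModel μ z A),
    ∀ᵐ ω ∂μ, ((1 + δ : ℝ) : EReal) ≤ cramerLimsup {n | ω ∈ A n} := by
  set κ := min η (1 / 2) with hκ
  have hκ0 : 0 < κ := by positivity
  have hκη : κ ≤ η := min_le_left _ _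
  have hκ1 : κ < 1 := lt_of_le_of_lt (min_le_right _ _) (by norm_num)
  obtain ⟨δ, hδ, hδ1, K, z₀, hK, hlow⟩ := lowInt (4 / κ)
  refine ⟨δ, hδ, ?_⟩
  intro Ω _ μ _ z hz hf A hA
  apply lower hz hA (ρ := 1 - δ) (κ := κ) (by linarith) (by linarith) (by nlinarith) hκ1
  have hw := wl_tendsto hκ0
  have hC : (0 : ℝ) < 1 + δ := by linarith
  have hk4 : ∀ᶠ k : ℕ in atTop, 2 * (1 + δ) * (k : ℝ) ^ 2 ≤ ((k : ℝ) ^ κ / 2) ^ (4 / κ) := by
    set c := 2 * (1 + δ) * 2 ^ (4 / κ) with hc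
    filter_upwards [tendsto_natCast_atTop_atTop.eventually_ge_atTop c,
      eventually_ge_atTop 1] with k hk hk1
    have hkr : (1 : ℝ) ≤ k := by exact_mod_cast hk1
    rw [Real.div_rpow (by positivity) (by norm_num), ← Real.rpow_mul (by linarith)]
    have e1 : κ * (4 / κ) = ((4 : ℕ) : ℝ) := by
      push_cast
      field_simp
    rw [e1, Real.rpow_natCast, le_div_iff₀ (by positivity)]
    calc 2 * (1 + δ) * (k : ℝ) ^ 2 * 2 ^ (4 / κ) = c * (k : ℝ) ^ 2 := by rw [hc]; ring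
      _ ≤ k * (k : ℝ) ^ 2 := by gcongr
      _ = (k : ℝ) ^ 3 := by ring
      _ ≤ (k : ℝ) ^ 4 := pow_le_pow_right₀ hkr (by norm_num)
  have hak : ∀ᶠ k : ℕ in atTop, 4 * (k : ℝ) ^ K ≤ 2 ^ k := by
    have h1 : Tendsto (fun x : ℝ => x ^ K * Real.exp (-Real.log 2 * x)) atTop (𝓝 0) :=
      tendsto_rpow_mul_exp_neg_mul_atTop_nhds_zero K (Real.log 2) (Real.log_pos (by norm_num))
    have h2 := (h1.comp (tendsto_natCast_atTop_atTop (R := ℝ))).eventually
      (gt_mem_nhds (by norm_num : (0 : ℝ) < 1 / 4))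
    filter_upwards [h2] with k hk
    simp only [Function.comp] at hk
    have h3 : Real.exp (-Real.log 2 * k) = ((2 : ℝ) ^ k)⁻¹ := by
      rw [neg_mul, Real.exp_neg, ← Real.rpow_def_of_pos (by norm_num), Real.rpow_natCast]
    rw [h3, ← div_eq_mul_inv, div_lt_iff₀ (by positivity)] at hk
    linarith
  refine (hf.and_eventually (((((ev_wl_ge hκ0).and (hw.eventually_ge_atTop z₀)).and hk4).and
    hak).and ((ev_hl_le hC one_pos).and (eventually_ge_atTop 1)))).mono ?_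
  rintro k ⟨b1, ⟨⟨⟨b2, b3⟩, b4⟩, b5⟩, b6, b7⟩
  have hkr : (1 : ℝ) ≤ k := by exact_mod_cast b7
  have hl2 : 0 < Real.log 2 := Real.log_pos (by norm_num)
  have hl21 : Real.log 2 ≤ 1 := by have := Real.log_two_lt_d9; linarith
  have hhpos : 1 ≤ hl (1 + δ) k := by
    unfold hl
    rw [Nat.one_le_ceil_iff]
    positivity
  have hle : (hl (1 + δ) k : ℝ) ≤ (wl κ k : ℝ) ^ (4 / κ) := by
    calc (hl (1 + δ) k : ℝ) ≤ (1 + 1) * (1 + δ) * (k * Real.log 2) ^ 2 := b6
      _ ≤ (1 + 1) * (1 + δ) * (k * 1) ^ 2 := by gcongr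
      _ = 2 * (1 + δ) * (k : ℝ) ^ 2 := by ring
      _ ≤ ((k : ℝ) ^ κ / 2) ^ (4 / κ) := b4
      _ ≤ (wl κ k : ℝ) ^ (4 / κ) := by gcongr
  obtain ⟨a, ha, hac⟩ := hlow (wl κ k) b3 (hl (1 + δ) k) hhpos hle
  refine ⟨wl κ k, a, wl_le κ k, ?_, ?_, hac⟩
  · intro p hp
    rw [mem_Pz] at hp ⊢
    refine ⟨hp.1, ?_⟩
    have h1 : (wl κ k : ℝ) ≤ z k := by
      calc (wl κ k : ℝ) ≤ (k : ℝ) ^ κ := wl_le κ k
        _ ≤ (k : ℝ) ^ η := Real.rpow_le_rpow_of_exponent_le hkr hκη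
        _ ≤ z k := b1
    have h2 : wl κ k ≤ z k := by exact_mod_cast h1
    omega
  · have h1 : (wl κ k : ℝ) ≤ k := by
      calc (wl κ k : ℝ) ≤ (k : ℝ) ^ κ := wl_le κ k
        _ ≤ (k : ℝ) ^ (1 : ℝ) := Real.rpow_le_rpow_of_exponent_le hkr hκ1.le
        _ = k := Real.rpow_one _
    have h2 : 4 * (a : ℝ) ≤ 2 ^ k := by
      calc 4 * (a : ℝ) ≤ 4 * (wl κ k : ℝ) ^ K := by gcongr
        _ ≤ 4 * (k : ℝ) ^ K := by gcongr
        _ ≤ 2 ^ k := b5
    exact_mod_cast h2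

/-- Granville's constant -/
theorem granville {Ω : Type*} [MeasurableSpace Ω] {μ : Measure Ω} [IsProbabilityMeasure μ]
    {z : ℕ → ℕ} (hz : Tendsto (fun k : ℕ => Real.log (z k) / k) atTop (𝓝 0))
    (hf : ∀ θ : ℝ, θ < 1 → ∃ᶠ k : ℕ in atTop, (k : ℝ) ^ θ ≤ z k)
    {A : ℕ → Set Ω} (hA : IsSievedModel μ z A) :
    ∀ᵐ ω ∂μ, ((2 * Real.exp (-Real.eulerMascheroniConstant) : ℝ) : EReal) ≤
      cramerLimsup {n | ω ∈ A n} := by
  set g := 2 * Real.exp (-Real.eulerMascheroniConstant) with hg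
  have hg0 : 0 < g := by positivity
  have key : ∀ C : ℝ, 0 < C → C < g → ∀ᵐ ω ∂μ, (C : EReal) ≤ cramerLimsup {n | ω ∈ A n} := by
    intro C hC hCg
    have h1 : Tendsto (fun κ : ℝ => Real.exp Real.eulerMascheroniConstant *
        (κ / 2 + 2 * κ * Real.log (1 / κ))) (𝓝[<] 1)
        (𝓝 (Real.exp Real.eulerMascheroniConstant * (1 / 2 + 2 * 1 * Real.log (1 / 1)))) := by
      apply Tendsto.mono_left _ nhdsWithin_le_nhds
      apply ContinuousAt.tendsto
      have h2 : ContinuousAt (fun κ : ℝ => Real.log (1 / κ)) 1 := by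
        apply ContinuousAt.log
        · exact continuousAt_const.div continuousAt_id one_ne_zero
        · norm_num
      exact continuousAt_const.mul ((continuousAt_id.div_const 2).add
        ((continuousAt_const.mul continuousAt_id).mul h2))
    have h2 : Real.exp Real.eulerMascheroniConstant * (1 / 2 + 2 * 1 * Real.log (1 / 1)) <
        1 / C := by
      rw [div_one, Real.log_one, mul_zero, add_zero, lt_div_iff₀ hC]
      calc Real.exp Real.eulerMascheroniConstant * (1 / 2) * C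
          < Real.exp Real.eulerMascheroniConstant * (1 / 2) * g := by gcongr
        _ = 1 := by
            rw [hg, Real.exp_neg]
            field_simp
    obtain ⟨κ, ⟨hκ1, hκ2⟩, hκ3⟩ := (((h1.eventually (gt_mem_nhds h2)).and
      (nhdsWithin_le_nhds (lt_mem_nhds (by norm_num : (2 : ℝ) / 3 < 1)))).and
      self_mem_nhdsWithin).exists
    have hκ3 : κ < 1 := hκ3
    obtain ⟨ρ, hρ1, hρ2⟩ := exists_between hκ1
    have hκ0 : 0 < κ := by linarith
    have hρ0 : 0 ≤ ρ := by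
      refine le_trans ?_ hρ1.le
      have h3 : 0 ≤ Real.log (1 / κ) := by
        apply Real.log_nonneg
        rw [le_div_iff₀ hκ0]
        linarith
      positivity
    rw [lt_div_iff₀ hC] at hρ2
    apply lower hz hA (ρ := ρ) (κ := κ) hC hρ0 hρ2 hκ3
    refine ((hf κ hκ3).and_eventually ((gran_ev hC hκ2 hκ3 hρ1).and
      (eventually_ge_atTop 1))).mono ?_
    rintro k ⟨b1, b2, b3⟩
    refine ⟨wl κ k, 0, wl_le κ k, ?_, by simp, b2⟩
    intro p hp
    rw [mem_Pz] at hp ⊢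
    refine ⟨hp.1, ?_⟩
    have h3 : (wl κ k : ℝ) ≤ z k := (wl_le κ k).trans b1
    have h4 : wl κ k ≤ z k := by exact_mod_cast h3
    omega
  have h1 : ∀ j : ℕ, ∀ᵐ ω ∂μ, ((g - g / ((j : ℝ) + 2) : ℝ) : EReal) ≤
      cramerLimsup {n | ω ∈ A n} := by
    intro j
    have hj : (0 : ℝ) ≤ j := Nat.cast_nonneg j
    have h0 : g / ((j : ℝ) + 2) ≤ g / 2 := by gcongr; linarith
    have h0' : 0 < g / ((j : ℝ) + 2) := by positivity
    exact key _ (by linarith) (by linarith)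
  filter_upwards [ae_all_iff.2 h1] with ω hω
  apply le_of_tendsto' (x := atTop) (f := fun j : ℕ => ((g - g / ((j : ℝ) + 2) : ℝ) : EReal))
    ?_ hω
  have h2 : Tendsto (fun j : ℕ => g - g / ((j : ℝ) + 2)) atTop (𝓝 (g - 0)) := by
    apply Tendsto.const_sub
    apply Tendsto.const_div_atTop
    exact tendsto_natCast_atTop_atTop.atTop_add tendsto_const_nhds
  rw [sub_zero] at h2
  exact (continuous_coe_real_ereal.tendsto g).comp h2

end Pool.Agent.J4.H70.SM
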