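import Pool.Agent.J4.H70.SM.Upper
import Pool.Agent.Cov.PNT
import Pool.Agent.H305R2.MertensE

/-!
# Rough numbers up to a power slightly above two
-/

set_option autoImplicit false

namespace Pool.Agent.J4.H70.SM

open Finset Filter Topology
open Pool.Agent.H318R2.Cr (Rgh Pz V cnt mem_Pz V_pos V_le_one)

theorem V_mul_log_tendsto : Tendsto (fun z : ℕ => V z * Real.log z) atTop
    (𝓝 (Real.exp (-Real.eulerMascheroniConstant))) := by
  have h1 := Pool.Agent.H305R2.mertens_three.inv₀ (Real.exp_pos _).ne'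
  rw [← Real.exp_neg] at h1
  refine h1.congr fun z => ?_
  rw [inv_div, prod_inv_distrib, div_inv_eq_mul, mul_comm]
  congr 1
  unfold V Pz
  apply prod_congr
  · congr 1
  · intro p _
    rw [one_div]

/-- the rough numbers below `w ^ 3` have at most two prime factors -/
theorem cnt_le_primes {w h : ℕ} (hwh : h < w ^ 3) :
    cnt w 0 h ≤ 1 + Nat.primeCounting h +
      ∑ p ∈ (Ioc w (Nat.sqrt h)).filter Nat.Prime, Nat.primeCounting (h / p) := by
  classical
  have hsub : (Ioc 0 (0 + h)).filter (Rgh w) ⊆ ({1} ∪ (range (h + 1)).filter Nat.Prime) ∪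
      ((Ioc w (Nat.sqrt h)).filter Nat.Prime).biUnion
        (fun p => ((range (h / p + 1)).filter Nat.Prime).image (fun m => p * m)) := by
    intro n hn
    rw [mem_filter, mem_Ioc] at hn
    obtain ⟨⟨hn0, hnh⟩, hr⟩ := hn
    rw [zero_add] at hnh
    rw [mem_union, mem_union, mem_singleton, mem_filter, mem_range, mem_biUnion]
    by_cases h1 : n = 1
    · exact Or.inl (Or.inl h1)
    by_cases h2 : n.Prime
    · exact Or.inl (Or.inr ⟨by omega, h2⟩)
    · right
      set p := n.minFac with hp
      have hpp : p.Prime := Nat.minFac_prime h1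
      have hpn : p ∣ n := Nat.minFac_dvd n
      have hwp : w < p := by
        by_contra hc
        exact hr p hpp (by omega) hpn
      have hp2 : p ^ 2 ≤ n := Nat.minFac_sq_le_self hn0 h2
      obtain ⟨m, hm⟩ := hpn
      refine ⟨p, ?_, ?_⟩
      · rw [mem_filter, mem_Ioc]
        refine ⟨⟨hwp, ?_⟩, hpp⟩
        rw [Nat.le_sqrt']
        omega
      · rw [mem_image]
        refine ⟨m, ?_, hm.symm⟩
        have hm1 : m ≠ 1 := by
          rintro rfl
          rw [mul_one] at hm
          rw [hm] at h2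
          exact h2 hpp
        have hm0 : 0 < m := by
          rcases Nat.eq_zero_or_pos m with h0 | h0
          · rw [h0, mul_zero] at hm
            omega
          · exact h0
        rw [mem_filter, mem_range]
        constructor
        · have : m ≤ h / p := by
            rw [Nat.le_div_iff_mul_le hpp.pos, mul_comm]
            omega
          omega
        · by_contra hmp
          have h3 : (m.minFac) ^ 2 ≤ m := Nat.minFac_sq_le_self hm0 hmp
          have h4 : (m.minFac).Prime := Nat.minFac_prime hm1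
          have h5 : w < m.minFac := by
            by_contra hc
            apply hr m.minFac h4 (by omega)
            rw [hm]
            exact (Nat.minFac_dvd m).mul_left p
          have h6 : w ^ 3 ≤ n := by
            calc w ^ 3 = w * w ^ 2 := by ring
              _ ≤ p * m.minFac ^ 2 := by gcongr
              _ ≤ p * m := by gcongr
              _ = n := hm.symm
          omega
  unfold cnt
  refine (card_le_card hsub).trans ?_
  refine (card_union_le _ _).trans ?_
  apply Nat.add_le_add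
  · refine (card_union_le _ _).trans ?_
    rw [card_singleton]
    apply Nat.add_le_add_left
    rw [Nat.primeCounting, Nat.primeCounting', Nat.count_eq_card_filter_range]
  · refine card_biUnion_le.trans ?_
    apply sum_le_sum
    intro p _
    refine card_image_le.trans ?_
    rw [Nat.primeCounting, Nat.primeCounting', Nat.count_eq_card_filter_range]

/-- an upper bound for the number of rough numbers -/
theorem cnt_le_main : ∃ C₂ : ℝ, 0 ≤ C₂ ∧ ∀ᶠ h : ℕ in atTop, ∀ w : ℕ, 2 ≤ w → h < w ^ 3 →
    w ^ 2 ≤ h → (cnt w 0 h : ℝ) ≤ 1 + Nat.primeCounting h +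
      4 * h / Real.log h * (Real.log (Real.log h / 2 / Real.log w) + C₂ / Real.log w) := by
  obtain ⟨C₂, hC₂, hM⟩ := Helper923.HMertens.mertens_ratio
  refine ⟨C₂, hC₂, ?_⟩
  have h1 : ∀ᶠ x : ℝ in atTop, (Nat.primeCounting ⌊x⌋₊ : ℝ) * Real.log x / x < 2 :=
    Pool.Agent.Cov.PNT.pi_tendsto.eventually (gt_mem_nhds (by norm_num : (1 : ℝ) < 2))
  obtain ⟨x₀, hx₀⟩ := eventually_atTop.1 h1
  filter_upwards [tendsto_natCast_atTop_atTop.eventually_ge_atTop ((max x₀ 2) ^ 2)] with h hh
  intro w hw hwh hw2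
  have hs2 : w ≤ Nat.sqrt h := by
    rw [Nat.le_sqrt']
    exact hw2
  have hhr : (4 : ℝ) ≤ h := by
    have h2 : (2 : ℝ) ^ 2 ≤ (max x₀ 2) ^ 2 := by
      have := le_max_right x₀ 2
      gcongr
    linarith
  have hlogh : 0 < Real.log h := Real.log_pos (by linarith)
  have hwr : (2 : ℝ) ≤ w := by exact_mod_cast hw
  have hlogw : 0 < Real.log w := Real.log_pos (by linarith)
  have hsq : Real.log (Nat.sqrt h) ≤ Real.log h / 2 := by
    have h3 : ((Nat.sqrt h : ℕ) : ℝ) ^ 2 ≤ h := by exact_mod_cast Nat.sqrt_le' h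
    have h4 : (0 : ℝ) < Nat.sqrt h := by
      have : 0 < Nat.sqrt h := by omega
      exact_mod_cast this
    have h5 := Real.log_le_log (by positivity) h3
    rw [Real.log_pow] at h5
    push_cast at h5
    linarith
  have h2 := cnt_le_primes hwh
  have h2' : (cnt w 0 h : ℝ) ≤ 1 + Nat.primeCounting h +
      ∑ p ∈ (Ioc w (Nat.sqrt h)).filter Nat.Prime, (Nat.primeCounting (h / p) : ℝ) := by
    exact_mod_cast h2
  refine h2'.trans ?_
  gcongr
  calc ∑ p ∈ (Ioc w (Nat.sqrt h)).filter Nat.Prime, (Nat.primeCounting (h / p) : ℝ)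
      ≤ ∑ p ∈ (Ioc w (Nat.sqrt h)).filter Nat.Prime, 4 * h / Real.log h * (1 / p) := by
        apply sum_le_sum
        intro p hp
        rw [mem_filter, mem_Ioc] at hp
        have hp0 : (0 : ℝ) < p := by exact_mod_cast hp.2.pos
        have hps : (p : ℝ) ^ 2 ≤ h := by
          have h3 : p ^ 2 ≤ h := by
            calc p ^ 2 ≤ (Nat.sqrt h) ^ 2 := Nat.pow_le_pow_left hp.1.2 2
              _ ≤ h := Nat.sqrt_le' h
          exact_mod_cast h3
        set x := (h : ℝ) / p with hx
        have hx0 : 0 < x := by positivity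
        have hxsq : (h : ℝ) ≤ x ^ 2 := by
          rw [hx, div_pow, le_div_iff₀ (by positivity)]
          calc (h : ℝ) * (p : ℝ) ^ 2 ≤ h * h := by gcongr
            _ = (h : ℝ) ^ 2 := by ring
        have hxx : max x₀ 2 ≤ x := by
          have h3 : (max x₀ 2) ^ 2 ≤ x ^ 2 := hh.trans hxsq
          exact (pow_le_pow_iff_left₀ (by positivity) hx0.le two_ne_zero).1 h3
        have hlx : Real.log h / 2 ≤ Real.log x := by
          have h3 := Real.log_le_log (by linarith) hxsq
          rw [Real.log_pow] at h3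
          push_cast at h3
          linarith
        have hlx0 : 0 < Real.log x := by linarith
        have h4 := (hx₀ x ((le_max_left _ _).trans hxx)).le
        have h5 : ⌊x⌋₊ = h / p := by rw [hx]; exact Nat.floor_div_eq_div h p
        rw [h5, div_le_iff₀ hx0, ← le_div_iff₀ hlx0] at h4
        calc (Nat.primeCounting (h / p) : ℝ) ≤ 2 * x / Real.log x := h4
          _ ≤ 2 * x / (Real.log h / 2) := by gcongr
          _ = 4 * h / Real.log h * (1 / p) := by
              rw [hx]
              field_simp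
              ring
    _ = 4 * h / Real.log h * ∑ p ∈ (Ioc w (Nat.sqrt h)).filter Nat.Prime, (1 : ℝ) / p := by
        rw [mul_sum]
    _ ≤ 4 * h / Real.log h * (Real.log (Real.log h / 2 / Real.log w) + C₂ / Real.log w) := by
        gcongr
        have h3 := (abs_le.1 (hM w (Nat.sqrt h) hw hs2)).2
        have h4 : Real.log (Real.log (Nat.sqrt h) / Real.log w) ≤
            Real.log (Real.log h / 2 / Real.log w) := by
          apply Real.log_le_log
          · apply div_pos _ hlogw
            apply Real.log_pos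
            have : (2 : ℝ) ≤ Nat.sqrt h := by exact_mod_cast hw.trans hs2
            linarith
          · gcongr
        linarith

theorem div_log_tendsto {f : ℕ → ℝ} {c D : ℝ} (h : ∀ᶠ k : ℕ in atTop, |f k - c * Real.log k| ≤ D) :
    Tendsto (fun k : ℕ => f k / Real.log k) atTop (𝓝 c) := by
  have hlog : Tendsto (fun k : ℕ => Real.log k) atTop atTop :=
    Real.tendsto_log_atTop.comp tendsto_natCast_atTop_atTop
  have h1 : Tendsto (fun k : ℕ => (f k - c * Real.log k) / Real.log k) atTop (𝓝 0) := by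
    apply squeeze_zero_norm' (a := fun k : ℕ => D / Real.log k)
    · filter_upwards [h, hlog.eventually_gt_atTop 0] with k hk hk0
      rw [norm_div, Real.norm_eq_abs, Real.norm_of_nonneg hk0.le]
      gcongr
    · exact hlog.const_div_atTop D
  have h2 := h1.add_const c
  rw [zero_add] at h2
  refine h2.congr' ?_
  filter_upwards [hlog.eventually_gt_atTop 0] with k hk0
  field_simp
  ring

theorem log_hl {C : ℝ} (hC : 0 < C) :
    Tendsto (fun k : ℕ => Real.log (hl C k) / Real.log k) atTop (𝓝 2) := by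
  have hl2 : 0 < Real.log 2 := Real.log_pos (by norm_num)
  apply div_log_tendsto (D := |Real.log (C * Real.log 2 ^ 2)| + Real.log 2)
  filter_upwards [ev_hl_le hC one_pos, eventually_ge_atTop 1] with k h1 h2
  have hkr : (1 : ℝ) ≤ k := by exact_mod_cast h2
  have hc : 0 < C * Real.log 2 ^ 2 := by positivity
  have h3 : C * Real.log 2 ^ 2 * (k : ℝ) ^ 2 ≤ hl C k := by
    refine le_trans ?_ (le_hl C k)
    calc C * Real.log 2 ^ 2 * (k : ℝ) ^ 2 = C * (k * Real.log 2) ^ 2 := by ring
      _ ≤ C * ((k + 1) * Real.log 2) ^ 2 := by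
          gcongr
          linarith
  have h4 : (hl C k : ℝ) ≤ 2 * (C * Real.log 2 ^ 2) * (k : ℝ) ^ 2 := by
    refine h1.trans (le_of_eq ?_)
    ring
  have h5 : 0 < C * Real.log 2 ^ 2 * (k : ℝ) ^ 2 := by positivity
  have h6 := Real.log_le_log h5 h3
  have h7 := Real.log_le_log (lt_of_lt_of_le h5 h3) h4
  rw [Real.log_mul hc.ne' (by positivity), Real.log_pow] at h6
  rw [Real.log_mul (by positivity) (by positivity), Real.log_mul (by norm_num) hc.ne',
    Real.log_pow] at h7
  push_cast at h6 h7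
  have h8 := neg_abs_le (Real.log (C * Real.log 2 ^ 2))
  have h9 := le_abs_self (Real.log (C * Real.log 2 ^ 2))
  rw [abs_le]
  constructor <;> linarith

/-- the sieving level used for the lower bound -/
noncomputable def wl (κ : ℝ) (k : ℕ) : ℕ := ⌊(k : ℝ) ^ κ⌋₊

theorem wl_le (κ : ℝ) (k : ℕ) : (wl κ k : ℝ) ≤ (k : ℝ) ^ κ := Nat.floor_le (by positivity)

theorem ev_wl_ge {κ : ℝ} (hκ : 0 < κ) : ∀ᶠ k : ℕ in atTop, (k : ℝ) ^ κ / 2 ≤ wl κ k := by
  have h1 : Tendsto (fun k : ℕ => (k : ℝ) ^ κ) atTop atTop :=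
    (tendsto_rpow_atTop hκ).comp tendsto_natCast_atTop_atTop
  filter_upwards [h1.eventually_ge_atTop 2] with k hk
  have h2 := Nat.sub_one_lt_floor ((k : ℝ) ^ κ)
  unfold wl
  linarith

theorem wl_tendsto {κ : ℝ} (hκ : 0 < κ) : Tendsto (fun k : ℕ => wl κ k) atTop atTop :=
  tendsto_nat_floor_atTop.comp ((tendsto_rpow_atTop hκ).comp tendsto_natCast_atTop_atTop)

theorem log_wl {κ : ℝ} (hκ : 0 < κ) :
    Tendsto (fun k : ℕ => Real.log (wl κ k) / Real.log k) atTop (𝓝 κ) := by
  apply div_log_tendsto (D := Real.log 2)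
  filter_upwards [ev_wl_ge hκ, eventually_ge_atTop 1] with k h1 h2
  have hkr : (1 : ℝ) ≤ k := by exact_mod_cast h2
  have h3 : 0 < (k : ℝ) ^ κ / 2 := by positivity
  have h4 := Real.log_le_log h3 h1
  have h5 := Real.log_le_log (lt_of_lt_of_le h3 h1) (wl_le κ k)
  rw [Real.log_div (by positivity) (by norm_num), Real.log_rpow (by linarith)] at h4
  rw [Real.log_rpow (by linarith)] at h5
  rw [abs_le]
  have hl2 : 0 < Real.log 2 := Real.log_pos (by norm_num)
  constructor <;> linarith

/-- the number of rough numbers in `(0, h]` -/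
theorem gran_ev {C κ ρ : ℝ} (hC : 0 < C) (hκ : 2 / 3 < κ) (hκ1 : κ < 1)
    (hρ : Real.exp Real.eulerMascheroniConstant * (κ / 2 + 2 * κ * Real.log (1 / κ)) < ρ) :
    ∀ᶠ k : ℕ in atTop, (cnt (wl κ k) 0 (hl C k) : ℝ) ≤ ρ * (hl C k * V (wl κ k)) := by
  have hκ0 : 0 < κ := by linarith
  obtain ⟨C₂, hC₂, hmain⟩ := cnt_le_main
  have hlog : Tendsto (fun k : ℕ => Real.log k) atTop atTop :=
    Real.tendsto_log_atTop.comp tendsto_natCast_atTop_atTop
  -- tendsto of `h`
  have hh : Tendsto (fun k : ℕ => hl C k) atTop atTop := by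
    have h1 : Tendsto (fun k : ℕ => C * ((k + 1) * Real.log 2) ^ 2) atTop atTop := by
      apply Tendsto.const_mul_atTop hC
      apply (tendsto_pow_atTop two_ne_zero).comp
      apply Tendsto.atTop_mul_const (Real.log_pos (by norm_num))
      exact tendsto_natCast_atTop_atTop.atTop_add tendsto_const_nhds
    exact tendsto_nat_ceil_atTop.comp h1
  have hhr : Tendsto (fun k : ℕ => (hl C k : ℝ)) atTop atTop :=
    tendsto_natCast_atTop_atTop.comp hh
  set r : ℕ → ℝ := fun k => Real.log (wl κ k) / Real.log (hl C k) with hr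
  have hrt : Tendsto r atTop (𝓝 (κ / 2)) := by
    have h1 := (log_wl hκ0).div (log_hl hC) (by norm_num)
    refine h1.congr' ?_
    filter_upwards [hlog.eventually_gt_atTop 0] with k hk
    simp only [Pi.div_apply, hr]
    field_simp
  have hlw : Tendsto (fun k : ℕ => Real.log (wl κ k)) atTop atTop :=
    Real.tendsto_log_atTop.comp (tendsto_natCast_atTop_atTop.comp (wl_tendsto hκ0))
  have hlh : Tendsto (fun k : ℕ => Real.log (hl C k)) atTop atTop :=
    Real.tendsto_log_atTop.comp hhr
  have t1 : Tendsto (fun k : ℕ => Real.log (hl C k) / (hl C k : ℝ)) atTop (𝓝 0) :=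
    (Real.isLittleO_log_id_atTop.tendsto_div_nhds_zero).comp hhr
  have t2 : Tendsto (fun k : ℕ => (Nat.primeCounting (hl C k) : ℝ) * Real.log (hl C k) /
      (hl C k : ℝ)) atTop (𝓝 1) := by
    refine (Pool.Agent.Cov.PNT.pi_tendsto.comp hhr).congr fun k => ?_
    simp only [Function.comp, Nat.floor_natCast]
  have t3 : Tendsto (fun k : ℕ => Real.log (1 / 2 / r k)) atTop (𝓝 (Real.log (1 / κ))) := by
    have h1 : Tendsto (fun k : ℕ => 1 / 2 / r k) atTop (𝓝 (1 / 2 / (κ / 2))) :=
      tendsto_const_nhds.div hrt (by positivity)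
    have h2 : (1 : ℝ) / 2 / (κ / 2) = 1 / κ := by field_simp
    rw [h2] at h1
    exact h1.log (by positivity)
  have t4 : Tendsto (fun k : ℕ => C₂ / Real.log (wl κ k)) atTop (𝓝 0) := hlw.const_div_atTop C₂
  have t5 : Tendsto (fun k : ℕ => V (wl κ k) * Real.log (wl κ k)) atTop
      (𝓝 (Real.exp (-Real.eulerMascheroniConstant))) := V_mul_log_tendsto.comp (wl_tendsto hκ0)
  have t6 : Tendsto (fun k : ℕ => (r k * (Real.log (hl C k) / (hl C k : ℝ)) +
      (Nat.primeCounting (hl C k) : ℝ) * Real.log (hl C k) / (hl C k : ℝ) * r k +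
      4 * r k * (Real.log (1 / 2 / r k) + C₂ / Real.log (wl κ k))) /
      (V (wl κ k) * Real.log (wl κ k))) atTop
      (𝓝 ((κ / 2 * 0 + 1 * (κ / 2) + 4 * (κ / 2) * (Real.log (1 / κ) + 0)) /
        Real.exp (-Real.eulerMascheroniConstant))) :=
    (((hrt.mul t1).add (t2.mul hrt)).add ((hrt.const_mul 4).mul (t3.add t4))).div t5
      (Real.exp_pos _).ne'
  have h3 : (κ / 2 * 0 + 1 * (κ / 2) + 4 * (κ / 2) * (Real.log (1 / κ) + 0)) /
        Real.exp (-Real.eulerMascheroniConstant) < ρ := by
    rw [Real.exp_neg, div_inv_eq_mul]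
    refine lt_of_eq_of_lt ?_ hρ
    ring
  have h4 := t6.eventually (gt_mem_nhds h3)
  have hr3 : ∀ᶠ k in atTop, 1 / 3 < r k := hrt.eventually (lt_mem_nhds (by linarith))
  have hr2 : ∀ᶠ k in atTop, r k < 1 / 2 := hrt.eventually (gt_mem_nhds (by linarith))
  filter_upwards [h4, hr3, hr2, hh.eventually hmain, (wl_tendsto hκ0).eventually_ge_atTop 2,
    hlw.eventually_gt_atTop 0, hlh.eventually_gt_atTop 0, hhr.eventually_gt_atTop 0]
    with k a1 a2 a3 a4 a5 a6 a7 a8
  simp only [hr] at a2 a3
  rw [lt_div_iff₀ a7] at a2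
  rw [div_lt_iff₀ a7] at a3
  have hwpos : (0 : ℝ) < wl κ k := by
    have : 0 < wl κ k := by omega
    exact_mod_cast this
  have b1 : hl C k < wl κ k ^ 3 := by
    have h5 : Real.log (hl C k) < Real.log ((wl κ k : ℝ) ^ 3) := by
      rw [Real.log_pow]
      push_cast
      linarith
    have h6 := (Real.log_lt_log_iff a8 (by positivity)).1 h5
    exact_mod_cast h6
  have b2 : wl κ k ^ 2 ≤ hl C k := by
    have h5 : Real.log ((wl κ k : ℝ) ^ 2) < Real.log (hl C k) := by
      rw [Real.log_pow]
      push_cast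
      linarith
    have h6 := (Real.log_lt_log_iff (by positivity) a8).1 h5
    exact_mod_cast h6.le
  have b3 := a4 (wl κ k) a5 b1 b2
  refine b3.trans ?_
  have hV := V_pos (wl κ k)
  have e1 : Real.log (hl C k) / 2 / Real.log (wl κ k) = 1 / 2 / r k := by
    simp only [hr]
    field_simp
  rw [e1]
  have e2 : (1 : ℝ) + Nat.primeCounting (hl C k) + 4 * (hl C k) / Real.log (hl C k) *
      (Real.log (1 / 2 / r k) + C₂ / Real.log (wl κ k)) =
      ((r k * (Real.log (hl C k) / (hl C k : ℝ)) +
      (Nat.primeCounting (hl C k) : ℝ) * Real.log (hl C k) / (hl C k : ℝ) * r k +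
      4 * r k * (Real.log (1 / 2 / r k) + C₂ / Real.log (wl κ k))) /
      (V (wl κ k) * Real.log (wl κ k))) * (hl C k * V (wl κ k)) := by
    have e3 : r k * Real.log (hl C k) = Real.log (wl κ k) := by
      simp only [hr]
      field_simp
    generalize Real.log (1 / 2 / r k) + C₂ / Real.log (wl κ k) = s
    rw [← e3]
    have hr0 : 0 < r k := by
      simp only [hr]
      positivity
    field_simp
  rw [e2]
  apply mul_le_mul_of_nonneg_right a1.le
  positivity

end Pool.Agent.J4.H70.SM
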