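import Pool.Agent.J4.H70.SM.Est
import Pool.Agent.J4.H70.SM.Det

/-!
# The lower bound for the large gaps of the sieved model
-/

set_option autoImplicit false

namespace Pool.Agent.J4.H70.SM

open Finset Filter Topology MeasureTheory ProbabilityTheory
open Pool.Agent.H318R2.Cr (Rgh Pz V cnt mem_Pz V_pos V_le_one cz_bounds keepProb IsSievedModel
  one_sub_inv_pos cramerLimsup)

/-- some interval `(a, a + h]` starting in the `k`-th dyadic block is free of the random set -/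
def G {Ω : Type*} (A : ℕ → Set Ω) (k h : ℕ) : Set Ω :=
  ⋃ a ∈ Finset.Ico (2 ^ k) (2 ^ (k + 1)), F A (Ioc a (a + h))

theorem mem_G {Ω : Type*} {A : ℕ → Set Ω} {k h : ℕ} {ω : Ω} :
    ω ∈ G A k h ↔ ∃ a, 2 ^ k ≤ a ∧ a < 2 ^ (k + 1) ∧ ∀ n ∈ Ioc a (a + h), ω ∉ A n := by
  unfold G
  simp only [Set.mem_iUnion, exists_prop, mem_F, Finset.mem_Ico, and_assoc]

theorem meas_G {Ω : Type*} [MeasurableSpace Ω] {A : ℕ → Set Ω} (hA : ∀ n, MeasurableSet (A n))
    (k h : ℕ) : MeasurableSet (G A k h) :=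
  Finset.measurableSet_biUnion _ fun _ _ => meas_F hA _

/-- a modulus divisible by all primes `≤ w` and by none of the primes in `(w, z]` -/
theorem exists_Q (w z h : ℕ) : ∃ Q : ℕ, 0 < Q ∧ (∀ p ∈ Pz w, p ∣ Q) ∧
    (∀ p ∈ Pz z \ Pz w, ¬ p ∣ Q) ∧ h ≤ Q ∧ Q ≤ 4 ^ w * (2 * (z + h + 1)) := by
  obtain ⟨q, hq, h1, h2⟩ := Nat.exists_prime_lt_and_le_two_mul (z + h + 1) (by omega)
  refine ⟨primorial w * q, Nat.mul_pos (primorial_pos w) hq.pos, ?_, ?_, ?_, ?_⟩
  · intro p hp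
    rw [mem_Pz] at hp
    apply Dvd.dvd.mul_right
    unfold primorial
    apply dvd_prod_of_mem (fun p => p)
    rw [mem_filter, mem_range]
    exact ⟨by omega, hp.1⟩
  · intro p hp hd
    rw [Finset.mem_sdiff, mem_Pz, mem_Pz] at hp
    rcases (hp.1.1.dvd_mul).1 hd with hd | hd
    · unfold primorial at hd
      rw [(hp.1.1.prime).dvd_finsetProd_iff] at hd
      obtain ⟨r, hr, hpr⟩ := hd
      rw [mem_filter, mem_range] at hr
      rw [(Nat.prime_dvd_prime_iff_eq hp.1.1 hr.2).1 hpr] at hp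
      exact hp.2 ⟨hr.2, by omega⟩
    · rw [(Nat.prime_dvd_prime_iff_eq hp.1.1 hq).1 hd] at hp
      omega
  · have h3 : 1 ≤ primorial w := primorial_pos w
    have h4 : q ≤ primorial w * q := Nat.le_mul_of_pos_left q (primorial_pos w)
    omega
  · exact Nat.mul_le_mul (primorial_le_four_pow w) h2

/-- the average number of sifted integers over the translates of an interval -/
theorem sum_cnt (ε : ℝ) (hε : 0 < ε) : ∃ (B : ℕ) (D : ℝ), 0 < D ∧
    ∀ w z Q a h m₀ M : ℕ, Pz w ⊆ Pz z → (∀ p ∈ Pz w, p ∣ Q) → (∀ p ∈ Pz z \ Pz w, ¬ p ∣ Q) →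
      D * (z : ℝ) ^ B ≤ M →
      ∑ m ∈ Ioc m₀ (m₀ + M), (cnt z (m * Q + a) h : ℝ) ≤
        (1 + ε) * M * (V z / V w) * cnt w a h := by
  classical
  obtain ⟨B, D, hD, hP⟩ := prog_asymp ε hε
  refine ⟨B, D, hD, fun w z Q a h m₀ M hwz hQw hQz hM => ?_⟩
  have e1 : ∀ m : ℕ, cnt z (m * Q + a) h =
      ∑ b ∈ Ioc a (a + h), if Rgh z (m * Q + b) then 1 else 0 := by
    intro m
    unfold cnt
    rw [card_filter]
    have h1 : Ioc (m * Q + a) (m * Q + a + h) = (Ioc a (a + h)).map (addLeftEmbedding (m * Q)) := by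
      rw [map_add_left_Ioc, add_assoc]
    rw [h1, sum_map]
    rfl
  have e2 : ∑ m ∈ Ioc m₀ (m₀ + M), (cnt z (m * Q + a) h : ℝ) =
      ∑ b ∈ Ioc a (a + h), (((Ioc m₀ (m₀ + M)).filter (fun m => Rgh z (m * Q + b))).card : ℝ) := by
    have h2 : ∑ m ∈ Ioc m₀ (m₀ + M), cnt z (m * Q + a) h =
        ∑ b ∈ Ioc a (a + h), ((Ioc m₀ (m₀ + M)).filter (fun m => Rgh z (m * Q + b))).card := by
      rw [sum_congr rfl fun m _ => e1 m, sum_comm]
      apply sum_congr rfl
      intro b _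
      rw [card_filter]
    exact_mod_cast h2
  rw [e2]
  have e3 : ∏ p ∈ Pz z \ Pz w, (1 - 1 / (p : ℝ)) = V z / V w := by
    rw [eq_div_iff (V_pos w).ne']
    exact prod_sdiff hwz
  calc ∑ b ∈ Ioc a (a + h), (((Ioc m₀ (m₀ + M)).filter (fun m => Rgh z (m * Q + b))).card : ℝ)
      ≤ ∑ b ∈ Ioc a (a + h), (if Rgh w b then (1 + ε) * (M * (V z / V w)) else 0) := by
        apply sum_le_sum
        intro b _
        split_ifs with hb
        · rw [← e3]
          refine le_trans ?_ (hP z (Pz z \ Pz w) sdiff_subset Q b m₀ M hQz hM)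
          have h3 : ((Ioc m₀ (m₀ + M)).filter (fun m => Rgh z (m * Q + b))) ⊆
              ((Ioc m₀ (m₀ + M)).filter (fun m => ∀ p ∈ Pz z \ Pz w, ¬ p ∣ m * Q + b)) := by
            intro m hm
            rw [mem_filter] at hm ⊢
            refine ⟨hm.1, fun p hp => ?_⟩
            rw [Finset.mem_sdiff, mem_Pz] at hp
            exact hm.2 p hp.1.1 hp.1.2
          exact_mod_cast card_le_card h3
        · have h3 : ((Ioc m₀ (m₀ + M)).filter (fun m => Rgh z (m * Q + b))) = ∅ := by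
            rw [filter_eq_empty_iff]
            intro m _ hr
            apply hb
            intro p hp hpw hd
            have h4 : p ∈ Pz w := mem_Pz.2 ⟨hp, hpw⟩
            have h5 := mem_Pz.1 (hwz h4)
            exact hr p h5.1 h5.2 (dvd_add ((hQw p h4).mul_left m) hd)
          rw [h3, card_empty]
          push_cast
          exact le_rfl
    _ = (1 + ε) * M * (V z / V w) * cnt w a h := by
        rw [← sum_filter, sum_const, nsmul_eq_mul]
        unfold cnt
        ring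

theorem sum_exp_ge {ι : Type*} (I : Finset ι) (x : ι → ℝ) (X : ℝ)
    (h : ∑ i ∈ I, x i ≤ I.card * X) : I.card * Real.exp (-X) ≤ ∑ i ∈ I, Real.exp (-x i) := by
  have h1 : ∀ i ∈ I, Real.exp (-X) * (1 - (x i - X)) ≤ Real.exp (-x i) := by
    intro i _
    have h2 := Real.add_one_le_exp (-(x i - X))
    have h3 : Real.exp (-x i) = Real.exp (-X) * Real.exp (-(x i - X)) := by
      rw [← Real.exp_add]
      congr 1
      ring
    rw [h3]
    apply mul_le_mul_of_nonneg_left _ (Real.exp_pos _).le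
    linarith
  calc (I.card : ℝ) * Real.exp (-X)
      ≤ Real.exp (-X) * (I.card - (∑ i ∈ I, x i - I.card * X)) := by
        rw [mul_comm]
        apply mul_le_mul_of_nonneg_left _ (Real.exp_pos _).le
        linarith
    _ = ∑ i ∈ I, Real.exp (-X) * (1 - (x i - X)) := by
        rw [← mul_sum, sum_sub_distrib, sum_sub_distrib, sum_const, sum_const, nsmul_eq_mul,
          nsmul_eq_mul, mul_one]
    _ ≤ _ := sum_le_sum h1

variable {Ω : Type*} [MeasurableSpace Ω] {μ : Measure Ω} [IsProbabilityMeasure μ]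

/-- the probability that one of the translates of an interval is free of the random set -/
theorem real_G_ge {z : ℕ → ℕ} {A : ℕ → Set Ω} (hA : IsSievedModel μ z A) {ε ρ : ℝ} (hε : 0 < ε)
    {B : ℕ} {D : ℝ} (hB : ∀ w z Q a h m₀ M : ℕ, Pz w ⊆ Pz z → (∀ p ∈ Pz w, p ∣ Q) →
      (∀ p ∈ Pz z \ Pz w, ¬ p ∣ Q) → D * (z : ℝ) ^ B ≤ M →
      ∑ m ∈ Ioc m₀ (m₀ + M), (cnt z (m * Q + a) h : ℝ) ≤
        (1 + ε) * M * (V z / V w) * cnt w a h)
    {k w a h Q m₀ M : ℕ} (hk : 0 < k) (hW : (1 + ε) / ε ≤ V (z k) * (k * Real.log 2))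
    (hwz : Pz w ⊆ Pz (z k)) (hQw : ∀ p ∈ Pz w, p ∣ Q) (hQz : ∀ p ∈ Pz (z k) \ Pz w, ¬ p ∣ Q)
    (hM : D * (z k : ℝ) ^ B ≤ M) (hc : (cnt w a h : ℝ) ≤ ρ * (h * V w)) (hQh : h ≤ Q)
    (h1 : 2 ^ k ≤ (m₀ + 1) * Q) (h2 : (m₀ + M) * Q + a + h < 2 ^ (k + 1)) :
    1 - Real.exp (-(M * Real.exp (-((1 + ε) ^ 2 * ρ * h / (k * Real.log 2))))) ≤
      μ.real (G A k h) := by
  have hl2 : 0 < Real.log 2 := Real.log_pos (by norm_num)
  have hkr : (0 : ℝ) < k := by exact_mod_cast hk
  have hV := V_pos (z k)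
  have hVw := V_pos w
  set J : ℕ → Finset ℕ := fun m => Ioc (m * Q + a) (m * Q + a + h) with hJ
  set I := Ioc m₀ (m₀ + M) with hI
  have hb : ∀ m ∈ I, 2 ^ k ≤ m * Q + a ∧ m * Q + a + h < 2 ^ (k + 1) := by
    intro m hm
    rw [hI, mem_Ioc] at hm
    have h3 : (m₀ + 1) * Q ≤ m * Q := Nat.mul_le_mul_right Q hm.1
    have h4 : m * Q ≤ (m₀ + M) * Q := Nat.mul_le_mul_right Q hm.2
    constructor <;> omega
  have hdisj : ∀ i ∈ I, ∀ j ∈ I, i ≠ j → Disjoint (J i) (J j) := by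
    have key : ∀ i j : ℕ, i < j → Disjoint (J i) (J j) := by
      intro i j hij
      rw [Finset.disjoint_left]
      intro n hn hn'
      simp only [hJ, mem_Ioc] at hn hn'
      have h3 : (i + 1) * Q ≤ j * Q := Nat.mul_le_mul_right Q hij
      have h4 : (i + 1) * Q = i * Q + Q := by ring
      omega
    intro i _ j _ hij
    rcases Nat.lt_or_gt_of_ne hij with h3 | h3
    · exact key i j h3
    · exact (key j i h3).symm
  have h3 := real_biUnion (μ := μ) hA.measurable hA.indep J I hdisj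
  have h4 : (⋃ i ∈ I, F A (J i)) ⊆ G A k h := by
    intro ω hω
    rw [Set.mem_iUnion₂] at hω
    obtain ⟨m, hm, hω⟩ := hω
    rw [mem_G]
    obtain ⟨h5, h6⟩ := hb m hm
    exact ⟨m * Q + a, h5, by omega, mem_F.1 hω⟩
  refine le_trans ?_ (h3.trans (measureReal_mono h4))
  apply sub_le_sub_left
  apply Real.exp_le_exp.2
  apply neg_le_neg
  set c := (1 + ε) / (V (z k) * (k * Real.log 2)) with hcdef
  have hc0 : 0 < c := by positivity
  have h5 : ∀ m ∈ I, Real.exp (-(c * cnt (z k) (m * Q + a) h)) ≤ μ.real (F A (J m)) := by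
    intro m hm
    obtain ⟨h6, h7⟩ := hb m hm
    have h8 := le_real_F hA hε hk hW (a := m * Q + a) (h := h) (by omega) h7
    have h9 : (1 + ε) * (cnt (z k) (m * Q + a) h / (V (z k) * (k * Real.log 2))) =
        c * cnt (z k) (m * Q + a) h := by
      rw [hcdef]
      ring
    rw [h9] at h8
    exact h8
  refine le_trans ?_ (sum_le_sum h5)
  have hcard : (I.card : ℝ) = M := by
    rw [hI, Nat.card_Ioc]
    congr 1
    omega
  have h6 := sum_exp_ge I (fun m => c * cnt (z k) (m * Q + a) h)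
    ((1 + ε) ^ 2 * ρ * h / (k * Real.log 2)) (by
      rw [← mul_sum, hcard]
      calc c * ∑ m ∈ I, (cnt (z k) (m * Q + a) h : ℝ)
          ≤ c * ((1 + ε) * M * (V (z k) / V w) * cnt w a h) := by
            apply mul_le_mul_of_nonneg_left _ hc0.le
            exact hB w (z k) Q a h m₀ M hwz hQw hQz hM
        _ ≤ c * ((1 + ε) * M * (V (z k) / V w) * (ρ * (h * V w))) := by
            apply mul_le_mul_of_nonneg_left _ hc0.le
            apply mul_le_mul_of_nonneg_left hc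
            positivity
        _ = M * ((1 + ε) ^ 2 * ρ * h / (k * Real.log 2)) := by
            rw [hcdef]
            field_simp)
  rw [hcard] at h6
  exact h6

end Pool.Agent.J4.H70.SM
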