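import Pool.Agent.J4.H70.SM.Lower

/-!
# The lower bound for the large gaps of the sieved model: asymptotics
-/

set_option autoImplicit false

namespace Pool.Agent.J4.H70.SM

open Finset Filter Topology MeasureTheory ProbabilityTheory
open Pool.Agent.H318R2.Cr (Rgh Pz V cnt mem_Pz V_pos V_le_one cz_bounds keepProb IsSievedModel
  one_sub_inv_pos cramerLimsup)

theorem ev_sq_le_exp (c τ : ℝ) (hτ : 0 < τ) :
    ∀ᶠ k : ℕ in atTop, c * (k : ℝ) ^ 2 ≤ Real.exp (τ * k) := by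
  filter_upwards [tendsto_natCast_atTop_atTop.eventually_ge_atTop (6 * c / τ ^ 3)] with k hk
  have hk0 : (0 : ℝ) ≤ k := Nat.cast_nonneg k
  have h1 := Real.pow_div_factorial_le_exp (τ * k) (by positivity) 3
  have h2 : ((3 : ℕ).factorial : ℝ) = 6 := by norm_num [Nat.factorial]
  rw [h2] at h1
  refine le_trans ?_ h1
  rw [div_le_iff₀ (by positivity)] at hk
  rw [le_div_iff₀ (by norm_num), mul_pow]
  nlinarith [sq_nonneg (k : ℝ)]

theorem ev_exp_ge (c τ : ℝ) (hτ : 0 < τ) : ∀ᶠ k : ℕ in atTop, c ≤ Real.exp (τ * k) := by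
  filter_upwards [tendsto_natCast_atTop_atTop.eventually_ge_atTop (c / τ)] with k hk
  rw [div_le_iff₀ hτ] at hk
  have := Real.add_one_le_exp (τ * k)
  linarith

/-- the length of the intervals -/
noncomputable def hl (C : ℝ) (k : ℕ) : ℕ := ⌈C * ((k + 1) * Real.log 2) ^ 2⌉₊

theorem le_hl (C : ℝ) (k : ℕ) : C * ((k + 1) * Real.log 2) ^ 2 ≤ hl C k := Nat.le_ceil _

theorem ev_hl_le {C ε : ℝ} (hC : 0 < C) (hε : 0 < ε) :
    ∀ᶠ k : ℕ in atTop, (hl C k : ℝ) ≤ (1 + ε) * C * (k * Real.log 2) ^ 2 := by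
  have hl2 : 0 < Real.log 2 := Real.log_pos (by norm_num)
  set c := C * Real.log 2 ^ 2 with hc
  have hc0 : 0 < c := by positivity
  filter_upwards [tendsto_natCast_atTop_atTop.eventually_ge_atTop ((3 * c + 1) / (ε * c)),
    tendsto_natCast_atTop_atTop.eventually_ge_atTop (1 : ℝ)] with k hk hk1
  rw [div_le_iff₀ (by positivity)] at hk
  have h1 : (hl C k : ℝ) ≤ C * ((k + 1) * Real.log 2) ^ 2 + 1 :=
    (Nat.ceil_lt_add_one (by positivity)).le
  refine h1.trans ?_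
  have e1 : C * (((k : ℝ) + 1) * Real.log 2) ^ 2 = c * (k + 1) ^ 2 := by rw [hc]; ring
  have e2 : (1 + ε) * C * ((k : ℝ) * Real.log 2) ^ 2 = (1 + ε) * c * k ^ 2 := by rw [hc]; ring
  rw [e1, e2]
  have h2 : (3 * c + 1) * k ≤ ε * c * k ^ 2 := by
    calc (3 * c + 1) * k ≤ (k * (ε * c)) * k := by gcongr
      _ = ε * c * k ^ 2 := by ring
  nlinarith

theorem ev_rpow_le (κ : ℝ) (hκ : κ < 1) (τ : ℝ) (hτ : 0 < τ) :
    ∀ᶠ k : ℕ in atTop, (k : ℝ) ^ κ * Real.log 4 ≤ τ * k := by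
  have hl4 : 0 < Real.log 4 := Real.log_pos (by norm_num)
  have h1 : Tendsto (fun k : ℕ => (k : ℝ) ^ (-(1 - κ))) atTop (𝓝 0) :=
    (tendsto_rpow_neg_atTop (by linarith)).comp tendsto_natCast_atTop_atTop
  have h2 : 0 < τ / Real.log 4 := by positivity
  filter_upwards [h1.eventually (gt_mem_nhds h2), eventually_ge_atTop 1] with k hk hk1
  have hkr : (0 : ℝ) < k := by exact_mod_cast hk1
  rw [lt_div_iff₀ hl4] at hk
  have e1 : (k : ℝ) ^ κ = (k : ℝ) ^ (-(1 - κ)) * k := by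
    rw [← Real.rpow_add_one hkr.ne']
    congr 1
    ring
  rw [e1]
  calc (k : ℝ) ^ (-(1 - κ)) * k * Real.log 4 = ((k : ℝ) ^ (-(1 - κ)) * Real.log 4) * k := by ring
    _ ≤ τ * k := by gcongr

theorem exists_eps {x : ℝ} (hx : x < 1) : ∃ ε : ℝ, 0 < ε ∧ (1 + ε) ^ 3 * x < 1 := by
  have h1 : Tendsto (fun ε : ℝ => (1 + ε) ^ 3 * x) (𝓝[>] 0) (𝓝 ((1 + 0) ^ 3 * x)) := by
    apply Tendsto.mono_left _ nhdsWithin_le_nhds
    apply Continuous.tendsto (by fun_prop)
  have h2 : (1 + (0 : ℝ)) ^ 3 * x < 1 := by linarith [show (1 + (0 : ℝ)) ^ 3 * x = x by ring]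
  obtain ⟨ε, h3, h4⟩ := ((h1.eventually (gt_mem_nhds h2)).and self_mem_nhdsWithin).exists
  exact ⟨ε, h4, h3⟩

variable {Ω : Type*} [MeasurableSpace Ω] {μ : Measure Ω} [IsProbabilityMeasure μ]

theorem low_ev {z : ℕ → ℕ} (hz : Tendsto (fun k : ℕ => Real.log (z k) / k) atTop (𝓝 0))
    {A : ℕ → Set Ω} (hA : IsSievedModel μ z A) {C ρ κ : ℝ} (hC : 0 < C) (hρ : 0 ≤ ρ)
    (hρC : ρ * C < 1) (hκ : κ < 1) {δ : ℝ} (hδ : 0 < δ) : ∀ᶠ k : ℕ in atTop,
    (∃ w a : ℕ, (w : ℝ) ≤ (k : ℝ) ^ κ ∧ Pz w ⊆ Pz (z k) ∧ 4 * a ≤ 2 ^ k ∧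
      (cnt w a (hl C k) : ℝ) ≤ ρ * (hl C k * V w)) → 1 - δ ≤ μ.real (G A k (hl C k)) := by
  have hl2 : 0 < Real.log 2 := Real.log_pos (by norm_num)
  obtain ⟨ε, hε, hθ⟩ := exists_eps hρC
  set θ := (1 + ε) ^ 3 * (ρ * C) with hθdef
  obtain ⟨B, D, hD, hB⟩ := sum_cnt ε hε
  obtain ⟨τ, hτ, hτ1, hτ2⟩ : ∃ τ : ℝ, 0 < τ ∧ (B + 5) * τ ≤ Real.log 2 ∧
      5 * τ ≤ (1 - θ) * Real.log 2 := by
    refine ⟨min (Real.log 2 / (B + 5)) ((1 - θ) * Real.log 2 / 5), ?_, ?_, ?_⟩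
    · apply lt_min (by positivity)
      have : 0 < 1 - θ := by linarith
      positivity
    · calc ((B : ℝ) + 5) * min (Real.log 2 / (B + 5)) ((1 - θ) * Real.log 2 / 5)
          ≤ (B + 5) * (Real.log 2 / (B + 5)) := by gcongr; exact min_le_left _ _
        _ = Real.log 2 := by field_simp
    · calc 5 * min (Real.log 2 / (B + 5)) ((1 - θ) * Real.log 2 / 5)
          ≤ 5 * ((1 - θ) * Real.log 2 / 5) := by gcongr; exact min_le_right _ _
        _ = (1 - θ) * Real.log 2 := by field_simp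
  filter_upwards [le_exp_of hz τ hτ, (V_mul_tendsto hz).eventually_ge_atTop ((1 + ε) / ε),
    ev_hl_le hC hε, ev_sq_le_exp ((1 + ε) * C * Real.log 2 ^ 2) τ hτ, ev_exp_ge 24 τ hτ,
    ev_rpow_le κ hκ τ hτ, ev_exp_ge D τ hτ,
    ev_exp_ge (-Real.log δ) τ hτ, eventually_ge_atTop 1] with k a1 a2 a3 a4 a5 a6 a7 a8 a9
  rintro ⟨w, a, hwk, hwz, ha, hc⟩
  set E := Real.exp (τ * k) with hE
  set X := Real.exp (k * Real.log 2) with hX
  have hX2 : ((2 : ℝ)) ^ k = X := by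
    rw [hX, mul_comm, ← Real.rpow_def_of_pos (by norm_num), Real.rpow_natCast]
  have hE0 : 0 < E := Real.exp_pos _
  have hE1 : 1 ≤ E := by linarith
  have hX0 : 0 < X := Real.exp_pos _
  have hkr : (1 : ℝ) ≤ k := by exact_mod_cast a9
  have hk0 : (0 : ℝ) ≤ k := by linarith
  set h := hl C k with hh
  have hhE : (h : ℝ) ≤ E := by
    refine a3.trans (le_trans (le_of_eq ?_) a4)
    ring
  -- `4 ^ w ≤ E`
  have hw : (4 : ℝ) ^ w ≤ E := by
    have hl4 : 0 < Real.log 4 := Real.log_pos (by norm_num)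
    have h4 : w * Real.log 4 ≤ τ * k :=
      (mul_le_mul_of_nonneg_right hwk hl4.le).trans a6
    calc (4 : ℝ) ^ w = Real.exp (w * Real.log 4) := by
          rw [mul_comm, ← Real.rpow_def_of_pos (by norm_num), Real.rpow_natCast]
      _ ≤ E := Real.exp_le_exp.2 h4
  have hpow : ∀ (n : ℕ) (c : ℝ), n * τ ≤ c → E ^ n ≤ Real.exp (c * k) := by
    intro n c hn
    rw [hE, ← Real.exp_nat_mul]
    apply Real.exp_le_exp.2
    calc n * (τ * k) = (n * τ) * k := by ring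
      _ ≤ c * k := by gcongr
  have hXE : E ^ (B + 5) ≤ X := by
    have h1 := hpow (B + 5) (Real.log 2) (by push_cast; linarith)
    rwa [mul_comm (Real.log 2)] at h1
  have hE4 : E ^ 4 ≤ X := by
    refine le_trans ?_ hXE
    exact pow_le_pow_right₀ hE1 (by omega)
  have hE5 : E ^ 5 ≤ X := by
    refine le_trans ?_ hXE
    exact pow_le_pow_right₀ hE1 (by omega)
  -- `4 h < 2 ^ k`
  have h4h : 4 * h < 2 ^ k := by
    have h1 : 4 * (h : ℝ) < (2 : ℝ) ^ k := by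
      rw [hX2]
      calc 4 * (h : ℝ) ≤ 4 * E := by gcongr
        _ < 24 * E := by linarith
        _ ≤ E * E := by gcongr
        _ = E ^ 2 := by ring
        _ ≤ E ^ 4 := pow_le_pow_right₀ hE1 (by omega)
        _ ≤ X := hE4
    exact_mod_cast h1
  obtain ⟨Q, hQ0, hQ1, hQ2, hQ3, hQ4⟩ := exists_Q w (z k) h
  have hQr : (0 : ℝ) < Q := by exact_mod_cast hQ0
  have hQE : (Q : ℝ) ≤ E ^ 3 := by
    have h1 : (Q : ℝ) ≤ 4 ^ w * (2 * (z k + h + 1)) := by exact_mod_cast hQ4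
    calc (Q : ℝ) ≤ 4 ^ w * (2 * (z k + h + 1)) := h1
      _ ≤ E * (2 * (E + E + E)) := by gcongr
      _ = 6 * E ^ 2 := by ring
      _ ≤ E * E ^ 2 := by gcongr; linarith
      _ = E ^ 3 := by ring
  obtain ⟨k', hk'⟩ : ∃ k', k = k' + 1 := ⟨k - 1, by omega⟩
  set N := 2 ^ k' with hN
  have hN2 : 2 ^ k = 2 * N := by rw [hk', pow_succ, hN]; ring
  have hNr : (N : ℝ) = X / 2 := by
    rw [← hX2]
    have : ((2 : ℝ)) ^ k = 2 * N := by exact_mod_cast hN2
    linarith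
  set M := N / Q with hM
  have hM1 : N < (M + 1) * Q := Nat.lt_mul_of_div_lt (Nat.lt_succ_self _) hQ0
  have hM2 : M * Q ≤ N := Nat.div_mul_le_self N Q
  have hMX : X / E ^ 4 ≤ M := by
    have h1 : (N : ℝ) ≤ (M + 1) * Q := by exact_mod_cast hM1.le
    have h2 : X / 2 ≤ (M + 1) * E ^ 3 := by
      rw [← hNr]
      refine h1.trans ?_
      gcongr
    have h3 : X / (2 * E ^ 3) ≤ M + 1 := by
      rw [div_le_iff₀ (by positivity)]
      linarith
    have h4 : X / (2 * E ^ 3) = X / E ^ 4 * (E / 2) := by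
      field_simp
    have h5 : 1 ≤ X / E ^ 4 := by
      rw [le_div_iff₀ (by positivity)]
      linarith
    rw [h4] at h3
    nlinarith
  set m₀ := 2 ^ k / Q with hm₀
  have hm1 : 2 ^ k ≤ (m₀ + 1) * Q :=
    (Nat.lt_mul_of_div_lt (Nat.lt_succ_self _) hQ0).le
  have hm2 : m₀ * Q ≤ 2 ^ k := Nat.div_mul_le_self _ Q
  have hbound : (m₀ + M) * Q + a + h < 2 ^ (k + 1) := by
    have h1 : (m₀ + M) * Q = m₀ * Q + M * Q := by ring
    have h2 : 2 ^ (k + 1) = 2 * 2 ^ k := by ring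
    rw [h1, h2]
    omega
  have hDM : D * (z k : ℝ) ^ B ≤ M := by
    refine le_trans ?_ hMX
    rw [le_div_iff₀ (by positivity)]
    calc D * (z k : ℝ) ^ B * E ^ 4 ≤ E * E ^ B * E ^ 4 := by gcongr
      _ = E ^ (B + 5) := by ring
      _ ≤ X := hXE
  have hmain := real_G_ge hA hε hB (by omega) a2 hwz hQ1 hQ2 hDM hc hQ3 hm1 hbound
  refine le_trans ?_ hmain
  apply sub_le_sub_left
  calc Real.exp (-(M * Real.exp (-((1 + ε) ^ 2 * ρ * h / (k * Real.log 2)))))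
      ≤ Real.exp (-E) := by
        apply Real.exp_le_exp.2
        apply neg_le_neg
        have h1 : (1 + ε) ^ 2 * ρ * h / (k * Real.log 2) ≤ θ * (k * Real.log 2) := by
          rw [div_le_iff₀ (by positivity)]
          calc (1 + ε) ^ 2 * ρ * h ≤ (1 + ε) ^ 2 * ρ * ((1 + ε) * C * (k * Real.log 2) ^ 2) := by
                gcongr
            _ = θ * (k * Real.log 2) * (k * Real.log 2) := by
                rw [hθdef]
                ring
        have h2 : X * Real.exp (-(θ * (k * Real.log 2))) = Real.exp ((1 - θ) * Real.log 2 * k) := by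
          rw [hX, ← Real.exp_add]
          congr 1
          ring
        have h3 : E ^ 5 ≤ X * Real.exp (-(θ * (k * Real.log 2))) := by
          rw [h2]
          exact hpow 5 _ (by push_cast; linarith)
        calc E = E ^ 5 / E ^ 4 := by field_simp
          _ ≤ X * Real.exp (-(θ * (k * Real.log 2))) / E ^ 4 := by gcongr
          _ = X / E ^ 4 * Real.exp (-(θ * (k * Real.log 2))) := by ring
          _ ≤ M * Real.exp (-((1 + ε) ^ 2 * ρ * h / (k * Real.log 2))) := by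
              gcongr
    _ ≤ δ := by
        rw [← Real.le_log_iff_exp_le hδ]
        linarith

/-- Borel-Cantelli -/
theorem ae_eventually_not {E : ℕ → Set Ω} {u : ℕ → ℝ} (hu : Summable u)
    (h : ∀ᶠ k in atTop, μ.real (E k) ≤ u k) : ∀ᵐ ω ∂μ, ∀ᶠ k in atTop, ω ∉ E k := by
  apply ae_eventually_notMem
  have h1 : Summable fun k => μ.real (E k) := by
    apply Summable.of_norm_bounded_eventually_nat hu
    filter_upwards [h] with k hk
    rw [Real.norm_of_nonneg measureReal_nonneg]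
    exact hk
  have h2 : ∀ k, μ (E k) = ENNReal.ofReal (μ.real (E k)) := fun k =>
    (ENNReal.ofReal_toReal (measure_ne_top μ (E k))).symm
  rw [tsum_congr h2]
  exact h1.tsum_ofReal_ne_top

/-- the random set is almost surely infinite -/
theorem ae_infinite {z : ℕ → ℕ} (hz : Tendsto (fun k : ℕ => Real.log (z k) / k) atTop (𝓝 0))
    {A : ℕ → Set Ω} (hA : IsSievedModel μ z A) : ∀ᵐ ω ∂μ, {n | ω ∈ A n}.Infinite := by
  have hl2 : 0 < Real.log 2 := Real.log_pos (by norm_num)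
  have hl2' : Real.log 2 ≤ 0.7 := by have := Real.log_two_lt_d9; linarith
  obtain ⟨B, D, hD, hB⟩ := cnt_asymp (1 / 2) (by norm_num)
  set τ := Real.log 2 / (B + 2) with hτdef
  have hτ : 0 < τ := by positivity
  have hτ1 : (B + 2) * τ = Real.log 2 := by rw [hτdef]; field_simp
  have key : ∀ᶠ k : ℕ in atTop, μ.real (F A (Ioc (2 ^ k) (2 ^ k + (2 ^ k - 1)))) ≤
      Real.exp (-k) := by
    filter_upwards [le_exp_of hz τ hτ, (V_mul_tendsto hz).eventually_ge_atTop 1,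
      ev_sq_le_exp 5 (Real.log 2) hl2, ev_exp_ge 2 τ hτ, ev_exp_ge D τ hτ,
      eventually_ge_atTop 1] with k a1 a2 a3 a4 a5 a6
    have hkr : (1 : ℝ) ≤ k := by exact_mod_cast a6
    refine (real_F_le hA _).trans ?_
    apply Real.exp_le_exp.2
    apply neg_le_neg
    set E := Real.exp (τ * k) with hE
    have hE0 : 0 < E := Real.exp_pos _
    set X := Real.exp (Real.log 2 * k) with hX
    have hX2 : ((2 : ℝ)) ^ k = X := by
      rw [hX, ← Real.rpow_def_of_pos (by norm_num), Real.rpow_natCast]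
    have hpos : 1 ≤ 2 ^ k := Nat.one_le_two_pow
    have hhr : ((2 ^ k - 1 : ℕ) : ℝ) = X - 1 := by
      rw [Nat.cast_sub hpos, ← hX2]
      push_cast
      ring
    have hXE : E ^ (B + 2) = X := by
      rw [hE, ← Real.exp_nat_mul, hX]
      congr 1
      push_cast
      rw [← mul_assoc, hτ1]
    have h0 : D * (z k : ℝ) ^ B ≤ ((2 ^ k - 1 : ℕ) : ℝ) := by
      rw [hhr]
      have h1 : D * (z k : ℝ) ^ B ≤ E ^ (B + 1) := by
        calc D * (z k : ℝ) ^ B ≤ E * E ^ B := by gcongr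
          _ = E ^ (B + 1) := by ring
      have h2 : 2 * E ^ (B + 1) ≤ X := by
        calc 2 * E ^ (B + 1) ≤ E * E ^ (B + 1) := by gcongr
          _ = E ^ (B + 2) := by ring
          _ = X := hXE
      have h3 : 1 ≤ E ^ (B + 1) := one_le_pow₀ (by linarith)
      linarith
    have h1 := hB (z k) (2 ^ k) (2 ^ k - 1) h0
    have h2 := (abs_le.1 h1).1
    have h3 := le_sum_keepProb (z := z) (k := k) (a := 2 ^ k) (h := 2 ^ k - 1) (by omega) a2
      (by omega) (by rw [pow_succ]; omega)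
    refine le_trans ?_ h3
    have hV := V_pos (z k)
    rw [le_div_iff₀ (by positivity)]
    rw [hhr] at h2
    have h4 : (k : ℝ) * ((k + 1) * Real.log 2) ≤ 1 / 2 * (X - 1) := by
      have h5 : (k : ℝ) * ((k + 1) * Real.log 2) ≤ k * ((k + k) * 0.7) := by gcongr
      nlinarith
    calc (k : ℝ) * (V (z k) * ((k + 1) * Real.log 2))
        = (k : ℝ) * ((k + 1) * Real.log 2) * V (z k) := by ring
      _ ≤ 1 / 2 * (X - 1) * V (z k) := by gcongr
      _ ≤ _ := by linarith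
  have h2 := ae_eventually_not Real.summable_exp_neg_nat key
  filter_upwards [h2] with ω hω
  rw [Set.infinite_iff_exists_gt]
  intro b
  obtain ⟨k, hk⟩ := eventually_atTop.1 hω
  have h3 := hk (max k b) (le_max_left _ _)
  rw [mem_F] at h3
  push Not at h3
  obtain ⟨n, hn, hnA⟩ := h3
  refine ⟨n, hnA, ?_⟩
  rw [mem_Ioc] at hn
  have h4 : max k b < 2 ^ (max k b) := Nat.lt_two_pow_self
  have h5 := le_max_right k b
  omega

/-- the lower bound -/
theorem lower {z : ℕ → ℕ} (hz : Tendsto (fun k : ℕ => Real.log (z k) / k) atTop (𝓝 0))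
    {A : ℕ → Set Ω} (hA : IsSievedModel μ z A) {C ρ κ : ℝ} (hC : 0 < C) (hρ : 0 ≤ ρ)
    (hρC : ρ * C < 1) (hκ : κ < 1)
    (hf : ∃ᶠ k : ℕ in atTop, ∃ w a : ℕ, (w : ℝ) ≤ (k : ℝ) ^ κ ∧ Pz w ⊆ Pz (z k) ∧ 4 * a ≤ 2 ^ k ∧
      (cnt w a (hl C k) : ℝ) ≤ ρ * (hl C k * V w)) :
    ∀ᵐ ω ∂μ, (C : EReal) ≤ cramerLimsup {n | ω ∈ A n} := by
  have h1 := ae_frequently (μ := μ) (E := fun k => G A k (hl C k))
    (fun k => meas_G hA.measurable k _) (fun δ hδ =>
      (hf.and_eventually (low_ev hz hA hC hρ hρC hκ hδ)).mono fun k hk => hk.2 hk.1)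
  filter_upwards [h1, ae_infinite hz hA] with ω hω hinf
  apply le_limsup hinf hC.le
  refine hω.mono fun k hk => ?_
  rw [mem_G] at hk
  obtain ⟨a, ha1, ha2, ha3⟩ := hk
  exact ⟨a, hl C k, ha1, ha2, le_hl C k, ha3⟩

end Pool.Agent.J4.H70.SM
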