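import Pool.Agent.J4.H70.SM.LowerB

/-!
# The upper bound for the gaps of the sieved model
-/

set_option autoImplicit false

namespace Pool.Agent.J4.H70.SM

open Finset Filter Topology MeasureTheory ProbabilityTheory
open Pool.Agent.H318R2.Cr (Rgh Pz V cnt mem_Pz V_pos V_le_one cz_bounds keepProb IsSievedModel
  one_sub_inv_pos cramerLimsup)

theorem tendsto_of_le_rpow {z : ℕ → ℕ} {η : ℝ} (h : ∀ᶠ k : ℕ in atTop, (z k : ℝ) ≤ (k : ℝ) ^ η) :
    Tendsto (fun k : ℕ => Real.log (z k) / k) atTop (𝓝 0) := by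
  have h1 : Tendsto (fun k : ℕ => |η| * (Real.log k / k)) atTop (𝓝 (|η| * 0)) := by
    apply Tendsto.const_mul
    exact (Real.isLittleO_log_id_atTop.tendsto_div_nhds_zero).comp
      (tendsto_natCast_atTop_atTop (R := ℝ))
  rw [mul_zero] at h1
  refine squeeze_zero' (Eventually.of_forall fun k => ?_) ?_ h1
  · exact div_nonneg (Real.log_natCast_nonneg _) (Nat.cast_nonneg _)
  · filter_upwards [h, eventually_ge_atTop 1] with k hk hk1
    have hkr : (1 : ℝ) ≤ k := by exact_mod_cast hk1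
    have hlk : 0 ≤ Real.log k := Real.log_nonneg hkr
    rw [← mul_div_assoc]
    apply div_le_div_of_nonneg_right _ (by linarith)
    rcases Nat.eq_zero_or_pos (z k) with h0 | h0
    · rw [h0]
      simp only [Nat.cast_zero, Real.log_zero]
      positivity
    · have h2 : (0 : ℝ) < z k := by exact_mod_cast h0
      calc Real.log (z k) ≤ Real.log ((k : ℝ) ^ η) := Real.log_le_log h2 hk
        _ = η * Real.log k := Real.log_rpow (by linarith) _
        _ ≤ |η| * Real.log k := by gcongr; exact le_abs_self η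

theorem sum_low {ε : ℝ} (hε : 0 < ε) (hε1 : ε < 1) : ∃ η : ℝ, 0 < η ∧ ∀ z : ℕ → ℕ,
    (∀ᶠ k : ℕ in atTop, (z k : ℝ) ≤ (k : ℝ) ^ η) → ∀ᶠ k : ℕ in atTop, ∀ a h : ℕ,
      2 ^ k ≤ a + 1 → a + h < 2 ^ (k + 1) →
        (1 - ε) * (h - ε * (k : ℝ) ^ 2) ≤
          (∑ n ∈ Ioc a (a + h), keepProb z n) * ((k + 1) * Real.log 2) := by
  have hl2 : 0 < Real.log 2 := Real.log_pos (by norm_num)
  obtain ⟨B, D, hD, hB⟩ := cnt_asymp ε hε
  refine ⟨1 / (B + 1), by positivity, fun z hz => ?_⟩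
  filter_upwards [hz, (V_mul_tendsto (tendsto_of_le_rpow hz)).eventually_ge_atTop 1,
    tendsto_natCast_atTop_atTop.eventually_ge_atTop (D / ε), eventually_ge_atTop 1]
    with k a1 a2 a3 a4
  intro a h h1 h2
  have hkr : (1 : ℝ) ≤ k := by exact_mod_cast a4
  have hS : 0 ≤ ∑ n ∈ Ioc a (a + h), keepProb z n :=
    sum_nonneg fun n _ => keepProb_nonneg z n
  rcases le_total (h : ℝ) (ε * (k : ℝ) ^ 2) with h3 | h3
  · have h4 : (1 - ε) * (h - ε * (k : ℝ) ^ 2) ≤ 0 :=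
      mul_nonpos_of_nonneg_of_nonpos (by linarith) (by linarith)
    have h5 : 0 ≤ (∑ n ∈ Ioc a (a + h), keepProb z n) * ((k + 1) * Real.log 2) := by positivity
    linarith
  · have h4 : (z k : ℝ) ^ B ≤ k := by
      calc (z k : ℝ) ^ B ≤ ((k : ℝ) ^ ((1 : ℝ) / (B + 1))) ^ B := by gcongr
        _ = (k : ℝ) ^ ((1 : ℝ) / (B + 1) * B) := by
            rw [← Real.rpow_natCast, ← Real.rpow_mul (by linarith)]
        _ ≤ (k : ℝ) ^ (1 : ℝ) := by
            apply Real.rpow_le_rpow_of_exponent_le hkr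
            rw [one_div, ← div_eq_inv_mul, div_le_one (by positivity)]
            linarith
        _ = k := Real.rpow_one _
    have h5 : D * (z k : ℝ) ^ B ≤ h := by
      refine le_trans ?_ h3
      rw [div_le_iff₀ hε] at a3
      calc D * (z k : ℝ) ^ B ≤ (k * ε) * k := by gcongr
        _ = ε * (k : ℝ) ^ 2 := by ring
    have h6 := (abs_le.1 (hB (z k) a h h5)).1
    have h7 := le_sum_keepProb (z := z) (k := k) (a := a) (h := h) (by omega) a2 h1 h2
    have hV := V_pos (z k)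
    rw [div_le_iff₀ (by positivity)] at h7
    have h8 : ((1 - ε) * (h - ε * (k : ℝ) ^ 2)) * V (z k) ≤
        ((∑ n ∈ Ioc a (a + h), keepProb z n) * ((k + 1) * Real.log 2)) * V (z k) := by
      have h9 : 0 ≤ (1 - ε) * (ε * (k : ℝ) ^ 2) * V (z k) := by
        have : 0 ≤ 1 - ε := by linarith
        positivity
      nlinarith
    exact le_of_mul_le_mul_right h8 hV

theorem exists_eps2 {C : ℝ} (hC : 1 < C) : ∃ ε : ℝ, 0 < ε ∧ ε < 1 ∧
    (1 + C) / 2 * (1 + ε) * Real.log 2 ^ 2 ≤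
      (1 - ε) * (C * Real.log 2 ^ 2 - ε - 2 * ε * (1 + ε)) := by
  have hl2 : 0 < Real.log 2 := Real.log_pos (by norm_num)
  have h1 : Tendsto (fun ε : ℝ => (1 - ε) * (C * Real.log 2 ^ 2 - ε - 2 * ε * (1 + ε)) -
      (1 + C) / 2 * (1 + ε) * Real.log 2 ^ 2) (𝓝[>] 0)
      (𝓝 ((1 - 0) * (C * Real.log 2 ^ 2 - 0 - 2 * 0 * (1 + 0)) -
        (1 + C) / 2 * (1 + 0) * Real.log 2 ^ 2)) := by
    apply Tendsto.mono_left _ nhdsWithin_le_nhds
    apply Continuous.tendsto (by fun_prop)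
  have h2 : 0 < (1 - 0) * (C * Real.log 2 ^ 2 - 0 - 2 * 0 * (1 + 0)) -
        (1 + C) / 2 * (1 + 0) * Real.log 2 ^ 2 := by
    have : (1 - 0) * (C * Real.log 2 ^ 2 - 0 - 2 * 0 * (1 + 0)) -
        (1 + C) / 2 * (1 + 0) * Real.log 2 ^ 2 = (C - 1) / 2 * Real.log 2 ^ 2 := by ring
    rw [this]
    have : 0 < C - 1 := by linarith
    positivity
  have h3 : ∀ᶠ ε : ℝ in 𝓝[>] 0, ε < 1 :=
    nhdsWithin_le_nhds (gt_mem_nhds (by norm_num : (0 : ℝ) < 1))
  obtain ⟨ε, ⟨h4, h5⟩, h6⟩ := (((h1.eventually (lt_mem_nhds h2)).and h3).and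
    self_mem_nhdsWithin).exists
  exact ⟨ε, h6, h5, by linarith⟩

/-- the length of the intervals in the upper bound -/
noncomputable def hu (C : ℝ) (k : ℕ) : ℕ := ⌊C * (k * Real.log 2) ^ 2⌋₊

theorem upper_ev {C : ℝ} (hC : 1 < C) : ∃ η : ℝ, 0 < η ∧ ∀ z : ℕ → ℕ,
    (∀ᶠ k : ℕ in atTop, (z k : ℝ) ≤ (k : ℝ) ^ η) → ∀ᶠ k : ℕ in atTop, ∀ a : ℕ,
      2 ^ k ≤ a → a < 2 ^ (k + 1) →
        (1 + C) / 2 * (k * Real.log 2) ≤ ∑ n ∈ Ioc a (a + hu C k), keepProb z n := by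
  have hl2 : 0 < Real.log 2 := Real.log_pos (by norm_num)
  obtain ⟨ε, hε, hε1, hεC⟩ := exists_eps2 hC
  obtain ⟨η, hη, h⟩ := sum_low hε hε1
  refine ⟨η, hη, fun z hz => ?_⟩
  have hlow := h z hz
  filter_upwards [hlow, (tendsto_add_atTop_nat 1).eventually hlow,
    tendsto_natCast_atTop_atTop.eventually_ge_atTop (3 / ε),
    tendsto_natCast_atTop_atTop.eventually_ge_atTop (1 / ε),
    ev_sq_le_exp (C * Real.log 2 ^ 2) (Real.log 2) hl2,
    eventually_ge_atTop 1] with k a1 a2 a3 a4 a5 a6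
  intro a h1 h2
  have hkr : (1 : ℝ) ≤ k := by exact_mod_cast a6
  set H := hu C k with hH
  have hH1 : (H : ℝ) ≤ C * (k * Real.log 2) ^ 2 := Nat.floor_le (by positivity)
  have hH2 : C * (k * Real.log 2) ^ 2 - 1 ≤ H := (Nat.sub_one_lt_floor _).le
  have hH3 : H ≤ 2 ^ k := by
    have h3 : (H : ℝ) ≤ 2 ^ k := by
      calc (H : ℝ) ≤ C * (k * Real.log 2) ^ 2 := hH1
        _ = C * Real.log 2 ^ 2 * (k : ℝ) ^ 2 := by ring
        _ ≤ Real.exp (Real.log 2 * k) := a5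
        _ = 2 ^ k := by rw [← Real.rpow_def_of_pos (by norm_num), Real.rpow_natCast]
    exact_mod_cast h3
  set S := ∑ n ∈ Ioc a (a + H), keepProb z n with hS
  have hS0 : 0 ≤ S := sum_nonneg fun n _ => keepProb_nonneg z n
  have h1ε : 0 < 1 - ε := by linarith
  have key : (1 - ε) * (H - 2 * ε * ((k : ℝ) + 1) ^ 2) ≤ S * ((k + 2) * Real.log 2) := by
    rcases Nat.lt_or_ge (a + H) (2 ^ (k + 1)) with h3 | h3
    · have h4 := a1 a H (by omega) h3
      have h5 : S * ((k + 1) * Real.log 2) ≤ S * ((k + 2) * Real.log 2) := by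
        gcongr
        linarith
      have h6 : (1 - ε) * (H - 2 * ε * ((k : ℝ) + 1) ^ 2) ≤ (1 - ε) * (H - ε * (k : ℝ) ^ 2) := by
        apply mul_le_mul_of_nonneg_left _ h1ε.le
        nlinarith
      linarith
    · obtain ⟨b, hb⟩ : ∃ b, 2 ^ (k + 1) = b + 1 := ⟨2 ^ (k + 1) - 1, by
        have : 0 < 2 ^ (k + 1) := by positivity
        omega⟩
      have hb1 : a ≤ b := by omega
      have hb2 : b ≤ a + H := by omega
      obtain ⟨h₁, hh1⟩ : ∃ h₁, b = a + h₁ := ⟨b - a, by omega⟩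
      obtain ⟨h₂, hh2⟩ : ∃ h₂, a + H = b + h₂ := ⟨a + H - b, by omega⟩
      have h4 := a1 a h₁ (by omega) (by omega)
      have h5 := a2 b h₂ (by omega) (by
        rw [← hh2, pow_succ, hb]
        have : 2 ^ (k + 1) = 2 * 2 ^ k := by ring
        omega)
      have h6 : S = ∑ n ∈ Ioc a (a + h₁), keepProb z n + ∑ n ∈ Ioc b (b + h₂), keepProb z n := by
        rw [hS, hh2, ← hh1]
        exact (sum_Ioc_consecutive _ hb1 (by omega)).symm
      push_cast at h5
      have hS1 : 0 ≤ ∑ n ∈ Ioc a (a + h₁), keepProb z n :=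
        sum_nonneg fun n _ => keepProb_nonneg z n
      have h7 : (∑ n ∈ Ioc a (a + h₁), keepProb z n) * ((k + 1) * Real.log 2) ≤
          (∑ n ∈ Ioc a (a + h₁), keepProb z n) * ((k + 2) * Real.log 2) := by
        gcongr
        linarith
      have h8 : (H : ℝ) = h₁ + h₂ := by
        have : H = h₁ + h₂ := by omega
        exact_mod_cast this
      have h9 : (k : ℝ) + 1 + 1 = k + 2 := by ring
      rw [h9] at h5
      rw [h6, h8, add_mul]
      have h10 : (1 - ε) * ((h₁ : ℝ) + h₂ - 2 * ε * ((k : ℝ) + 1) ^ 2) ≤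
          (1 - ε) * (h₁ - ε * (k : ℝ) ^ 2) + (1 - ε) * (h₂ - ε * ((k : ℝ) + 1) ^ 2) := by
        rw [← mul_add]
        apply mul_le_mul_of_nonneg_left _ h1ε.le
        nlinarith
      linarith
  have b1 : 3 ≤ ε * k := by
    rw [div_le_iff₀ hε] at a3
    linarith
  have b2 : ((k : ℝ) + 1) ^ 2 ≤ (1 + ε) * (k : ℝ) ^ 2 := by nlinarith
  have b3 : (k : ℝ) + 2 ≤ (1 + ε) * k := by linarith
  have b4 : 1 ≤ ε * (k : ℝ) ^ 2 := by nlinarith
  have b5 : (1 + C) / 2 * (1 + ε) * Real.log 2 ^ 2 * (k : ℝ) ^ 2 ≤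
      S * ((1 + ε) * k * Real.log 2) := by
    calc (1 + C) / 2 * (1 + ε) * Real.log 2 ^ 2 * (k : ℝ) ^ 2
        ≤ (1 - ε) * (C * Real.log 2 ^ 2 - ε - 2 * ε * (1 + ε)) * (k : ℝ) ^ 2 := by gcongr
      _ = (1 - ε) * (C * (k * Real.log 2) ^ 2 - ε * (k : ℝ) ^ 2 -
            2 * ε * ((1 + ε) * (k : ℝ) ^ 2)) := by ring
      _ ≤ (1 - ε) * (H - 2 * ε * ((k : ℝ) + 1) ^ 2) := by
          apply mul_le_mul_of_nonneg_left _ h1ε.le
          nlinarith
      _ ≤ S * ((k + 2) * Real.log 2) := key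
      _ ≤ S * ((1 + ε) * k * Real.log 2) := by gcongr
  have b6 : ((1 + C) / 2 * (k * Real.log 2)) * ((1 + ε) * k * Real.log 2) ≤
      S * ((1 + ε) * k * Real.log 2) := by
    refine le_trans (le_of_eq ?_) b5
    ring
  exact le_of_mul_le_mul_right b6 (by positivity)

variable {Ω : Type*} [MeasurableSpace Ω] {μ : Measure Ω} [IsProbabilityMeasure μ]

theorem upper {C : ℝ} {z : ℕ → ℕ} (hC : 1 < C)
    (h : ∀ᶠ k : ℕ in atTop, ∀ a : ℕ, 2 ^ k ≤ a → a < 2 ^ (k + 1) →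
        (1 + C) / 2 * (k * Real.log 2) ≤ ∑ n ∈ Ioc a (a + hu C k), keepProb z n)
    {A : ℕ → Set Ω} (hA : IsSievedModel μ z A) :
    ∀ᵐ ω ∂μ, cramerLimsup {n | ω ∈ A n} ≤ (C : EReal) := by
  have hl2 : 0 < Real.log 2 := Real.log_pos (by norm_num)
  set r := Real.exp (-((C - 1) / 2 * Real.log 2)) with hr
  have hr1 : r < 1 := by
    rw [hr, Real.exp_lt_one_iff]
    have : 0 < (C - 1) / 2 * Real.log 2 := by
      have : 0 < C - 1 := by linarith
      positivity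
    linarith
  have key : ∀ᶠ k : ℕ in atTop, μ.real (G A k (hu C k)) ≤ r ^ k := by
    filter_upwards [h] with k hk
    unfold G
    calc μ.real (⋃ a ∈ Finset.Ico (2 ^ k) (2 ^ (k + 1)), F A (Ioc a (a + hu C k)))
        ≤ ∑ a ∈ Finset.Ico (2 ^ k) (2 ^ (k + 1)), μ.real (F A (Ioc a (a + hu C k))) :=
          measureReal_biUnion_finset_le _ _
      _ ≤ ∑ _a ∈ Finset.Ico (2 ^ k) (2 ^ (k + 1)),
            Real.exp (-((1 + C) / 2 * (k * Real.log 2))) := by
          apply sum_le_sum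
          intro a ha
          rw [Finset.mem_Ico] at ha
          refine (real_F_le hA _).trans ?_
          apply Real.exp_le_exp.2
          apply neg_le_neg
          exact hk a ha.1 ha.2
      _ = r ^ k := by
          rw [sum_const, Nat.card_Ico, nsmul_eq_mul]
          have h1 : 2 ^ (k + 1) - 2 ^ k = 2 ^ k := by
            rw [pow_succ]
            omega
          rw [h1]
          push_cast
          have h2 : (2 : ℝ) ^ k = Real.exp (k * Real.log 2) := by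
            rw [mul_comm, ← Real.rpow_def_of_pos (by norm_num), Real.rpow_natCast]
          rw [h2, ← Real.exp_add, hr, ← Real.exp_nat_mul]
          congr 1
          ring
  have hsum : Summable fun k : ℕ => r ^ k :=
    summable_geometric_of_lt_one (Real.exp_pos _).le hr1
  filter_upwards [ae_eventually_not hsum key] with ω hω
  obtain ⟨K, hK⟩ := eventually_atTop.1 hω
  apply limsup_le (by linarith) (K := K)
  intro k hk a ha1 ha2
  have h1 := hK k hk
  rw [mem_G] at h1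
  push Not at h1
  obtain ⟨n, hn, hnA⟩ := h1 a ha1 ha2
  rw [mem_Ioc] at hn
  refine ⟨n, hnA, hn.1, ?_⟩
  have h2 : (n : ℝ) ≤ a + hu C k := by exact_mod_cast hn.2
  have h3 : (hu C k : ℝ) ≤ C * (k * Real.log 2) ^ 2 := Nat.floor_le (by
    have : 0 < C := by linarith
    positivity)
  linarith

end Pool.Agent.J4.H70.SM
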